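import Pool.Agent.helper14.NR.E12d.PN4

/-!
Generated: certificates.
-/

namespace Pool.Agent.helper14.NR.E12d

open Pool.Agent.helper31.IA (Z)
open Pool.Agent.helper31.IX (Op XOps runX Cov CovD cov_split covD_split)
open Pool.Agent.helper31.IC (TD)
open Pool.Agent.helper63.RG (reloc)
open Pool.Agent.helper63.NF hiding TD
open Pool.Agent.helper14.CF (xE covD_E)
open Pool.Agent.helper14.NR (share)

mutual
theorem A4_c0_t6 : CovD 1 gA4 [(59556233216, 4581490688), (1209462947840, 109951320064), (1374389534720, 1374389534720)] :=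
  covD_E kA4_eq (.n 2 (.n 2 (.n 2 (.l 0) (.l 0)) (.n 2 (.l 0) (.n 0 (.l 0) (.l 0)))) (.n 0 (.n 2 (.n 0 (.l 0) (.l 0)) (.l 0)) (.n 2 (.n 0 (.l 0) (.l 0)) (.l 0))))
    [(59556233216, 4581490688), (1209462947840, 109951320064), (1374389534720, 1374389534720)] rfl (by decide +kernel)
theorem A4_c0_t7 : CovD 1 gA4 [(59556233216, 4581490688), (1209462947840, 109951320064), (4123168604160, 1374389534720)] :=
  covD_E kA4_eq (.n 0 (.n 2 (.n 2 (.l 0) (.l 0)) (.n 0 (.l 0) (.l 0))) (.n 2 (.n 2 (.l 0) (.l 0)) (.n 0 (.l 0) (.l 0))))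
    [(59556233216, 4581490688), (1209462947840, 109951320064), (4123168604160, 1374389534720)] rfl (by decide +kernel)
end

mutual
theorem A4_c0_t8 : CovD 1 gA4 [(59556233216, 4581490688), (1209462947840, 109951320064), (8246337208320, 2748779069440)] :=
  covD_E kA4_eq (.n 0 (.n 2 (.n 2 (.l 0) (.l 0)) (.n 2 (.n 2 (.l 0) (.l 0)) (.l 1))) (.n 2 (.n 2 (.l 0) (.l 0)) (.n 0 (.l 0) (.l 0))))
    [(59556233216, 4581490688), (1209462947840, 109951320064), (8246337208320, 2748779069440)] rfl (by decide +kernel)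
theorem A4_c0_t10 : CovD 1 gA4 [(57265487872, 2290745344), (1429365587968, 109951320064), (5497558138880, 5497558138880)] :=
  covD_E kA4_eq (.n 2 (.n 2 (.n 2 (.n 2 (.l 0) (.l 0)) (.n 2 (.l 0) (.l 0))) (.n 2 (.n 1 (.l 0) (.l 0)) (.l 0))) (.n 2 (.n 2 (.l 0) (.l 0)) (.n 2 (.l 0) (.l 0))))
    [(57265487872, 2290745344), (1429365587968, 109951320064), (5497558138880, 5497558138880)] rfl (by decide +kernel)
end

mutual
theorem A4_c0_t11 : CovD 1 gA4 [(61846978560, 2290745344), (1429365587968, 109951320064), (5497558138880, 5497558138880)] :=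
  covD_E kA4_eq (.n 2 (.n 2 (.n 2 (.n 2 (.l 0) (.l 0)) (.n 2 (.l 0) (.l 0))) (.n 2 (.n 1 (.l 0) (.l 0)) (.l 0))) (.n 2 (.n 2 (.l 0) (.l 0)) (.l 0)))
    [(61846978560, 2290745344), (1429365587968, 109951320064), (5497558138880, 5497558138880)] rfl (by decide +kernel)
theorem A4_c0_t14 : CovD 1 gA4 [(59556233216, 4581490688), (1649268228096, 109951320064), (2748779069440, 2748779069440)] :=
  covD_E kA4_eq (.n 2 (.n 2 (.n 2 (.l 0) (.n 0 (.l 0) (.l 0))) (.n 0 (.n 2 (.l 0) (.l 0)) (.n 2 (.l 0) (.l 0)))) (.n 2 (.n 2 (.n 0 (.l 0) (.l 0)) (.l 0)) (.n 0 (.l 0) (.l 0))))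
    [(59556233216, 4581490688), (1649268228096, 109951320064), (2748779069440, 2748779069440)] rfl (by decide +kernel)
end

mutual
theorem A4_c0_t15 : CovD 1 gA4 [(59556233216, 4581490688), (1649268228096, 109951320064), (8246337208320, 2748779069440)] :=
  covD_E kA4_eq (.n 0 (.n 2 (.n 2 (.l 0) (.l 0)) (.l 0)) (.n 2 (.n 2 (.l 0) (.l 0)) (.l 0)))
    [(59556233216, 4581490688), (1649268228096, 109951320064), (8246337208320, 2748779069440)] rfl (by decide +kernel)
theorem A4_c0_t16 : CovD 1 gA4 [(59556233216, 4581490688), (1869170868224, 109951320064), (5497558138880, 5497558138880)] :=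
  covD_E kA4_eq (.n 2 (.n 2 (.n 2 (.n 2 (.l 0) (.l 0)) (.n 2 (.l 0) (.l 0))) (.n 0 (.n 2 (.l 0) (.l 0)) (.n 2 (.l 0) (.l 0)))) (.n 0 (.n 2 (.n 1 (.l 0) (.l 0)) (.l 0)) (.n 2 (.n 1 (.l 0) (.l 0)) (.l 0))))
    [(59556233216, 4581490688), (1869170868224, 109951320064), (5497558138880, 5497558138880)] rfl (by decide +kernel)
end

mutual
theorem A4_c0_t20 : CovD 1 gA4 [(68719214592, 4581490688), (1209462947840, 109951320064), (2748779069440, 2748779069440)] :=
  covD_E kA4_eq (.n 2 (.n 2 (.n 2 (.n 1 (.l 0) (.l 0)) (.n 2 (.l 0) (.l 0))) (.n 2 (.n 2 (.l 0) (.l 0)) (.n 0 (.l 0) (.l 0)))) (.n 0 (.n 2 (.n 2 (.l 0) (.l 0)) (.n 0 (.l 0) (.l 0))) (.n 2 (.n 2 (.l 0) (.l 0)) (.n 0 (.l 0) (.l 0)))))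
    [(68719214592, 4581490688), (1209462947840, 109951320064), (2748779069440, 2748779069440)] rfl (by decide +kernel)
theorem A4_c0_t21 : CovD 1 gA4 [(68719214592, 4581490688), (1209462947840, 109951320064), (8246337208320, 2748779069440)] :=
  covD_E kA4_eq (.n 0 (.n 2 (.n 2 (.l 0) (.l 0)) (.n 0 (.l 0) (.l 0))) (.n 2 (.n 2 (.l 0) (.l 0)) (.n 0 (.l 0) (.l 0))))
    [(68719214592, 4581490688), (1209462947840, 109951320064), (8246337208320, 2748779069440)] rfl (by decide +kernel)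
end

mutual
theorem A4_c0_t23 : CovD 1 gA4 [(66428469248, 2290745344), (1429365587968, 109951320064), (5497558138880, 5497558138880)] :=
  covD_E kA4_eq (.n 2 (.n 2 (.n 2 (.n 2 (.l 0) (.l 0)) (.n 2 (.l 0) (.l 0))) (.n 2 (.n 1 (.l 0) (.l 0)) (.l 0))) (.n 2 (.n 2 (.l 0) (.l 0)) (.l 0)))
    [(66428469248, 2290745344), (1429365587968, 109951320064), (5497558138880, 5497558138880)] rfl (by decide +kernel)
theorem A4_c0_t24 : CovD 1 gA4 [(71009959936, 2290745344), (1429365587968, 109951320064), (5497558138880, 5497558138880)] :=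
  covD_E kA4_eq (.n 2 (.n 2 (.n 2 (.n 2 (.l 0) (.l 0)) (.n 2 (.l 0) (.l 0))) (.n 2 (.n 1 (.l 0) (.l 0)) (.l 0))) (.n 2 (.n 2 (.l 0) (.l 0)) (.l 0)))
    [(71009959936, 2290745344), (1429365587968, 109951320064), (5497558138880, 5497558138880)] rfl (by decide +kernel)
end

mutual
theorem A4_c0_t26 : CovD 1 gA4 [(68719214592, 4581490688), (1649268228096, 109951320064), (5497558138880, 5497558138880)] :=
  covD_E kA4_eq (.n 2 (.n 2 (.n 2 (.n 2 (.l 0) (.n 0 (.l 0) (.l 0))) (.n 2 (.n 0 (.l 0) (.l 0)) (.l 0))) (.n 2 (.n 2 (.l 0) (.l 0)) (.n 0 (.l 0) (.l 0)))) (.n 2 (.n 2 (.n 0 (.l 0) (.l 0)) (.l 0)) (.n 0 (.l 0) (.l 0))))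
    [(68719214592, 4581490688), (1649268228096, 109951320064), (5497558138880, 5497558138880)] rfl (by decide +kernel)
theorem A4_c0_t27 : CovD 1 gA4 [(68719214592, 4581490688), (1869170868224, 109951320064), (5497558138880, 5497558138880)] :=
  covD_E kA4_eq (.n 2 (.n 2 (.n 2 (.n 2 (.l 0) (.l 0)) (.n 2 (.l 0) (.l 0))) (.n 0 (.n 2 (.l 0) (.l 0)) (.n 2 (.l 0) (.l 0)))) (.n 2 (.n 2 (.n 0 (.l 0) (.l 0)) (.l 0)) (.n 0 (.l 0) (.l 0))))
    [(68719214592, 4581490688), (1869170868224, 109951320064), (5497558138880, 5497558138880)] rfl (by decide +kernel)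
end

mutual
theorem A4_c0_t32 : CovD 1 gA4 [(77882195968, 4581490688), (1154487287808, 54975660032), (5497558138880, 5497558138880)] :=
  covD_E kA4_eq (.n 2 (.n 2 (.n 2 (.n 2 (.l 0) (.l 0)) (.n 2 (.l 0) (.l 0))) (.n 2 (.n 2 (.l 0) (.l 0)) (.n 0 (.l 0) (.l 0)))) (.n 2 (.n 2 (.l 0) (.l 0)) (.n 0 (.l 0) (.l 0))))
    [(77882195968, 4581490688), (1154487287808, 54975660032), (5497558138880, 5497558138880)] rfl (by decide +kernel)
theorem A4_c0_t33 : CovD 1 gA4 [(77882195968, 4581490688), (1264438607872, 54975660032), (5497558138880, 5497558138880)] :=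
  covD_E kA4_eq (.n 2 (.n 2 (.n 2 (.n 2 (.l 0) (.l 0)) (.n 2 (.l 0) (.l 0))) (.n 2 (.n 2 (.l 0) (.l 0)) (.l 0))) (.n 2 (.n 2 (.l 0) (.l 0)) (.n 0 (.l 0) (.l 0))))
    [(77882195968, 4581490688), (1264438607872, 54975660032), (5497558138880, 5497558138880)] rfl (by decide +kernel)
end

mutual
theorem A4_c0_t35 : CovD 1 gA4 [(77882195968, 4581490688), (1429365587968, 109951320064), (2748779069440, 2748779069440)] :=
  covD_E kA4_eq (.n 2 (.n 0 (.n 2 (.n 2 (.l 0) (.l 0)) (.n 2 (.l 0) (.l 0))) (.n 2 (.n 2 (.l 0) (.l 0)) (.n 2 (.l 0) (.l 0)))) (.n 2 (.n 2 (.n 0 (.l 0) (.l 0)) (.l 0)) (.n 0 (.l 0) (.l 0))))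
    [(77882195968, 4581490688), (1429365587968, 109951320064), (2748779069440, 2748779069440)] rfl (by decide +kernel)
theorem A4_c0_t36 : CovD 1 gA4 [(77882195968, 4581490688), (1429365587968, 109951320064), (8246337208320, 2748779069440)] :=
  covD_E kA4_eq (.n 2 (.n 2 (.n 0 (.l 0) (.l 0)) (.l 0)) (.n 0 (.l 0) (.l 0)))
    [(77882195968, 4581490688), (1429365587968, 109951320064), (8246337208320, 2748779069440)] rfl (by decide +kernel)
end

mutual
theorem A4_c0_t38 : CovD 1 gA4 [(77882195968, 4581490688), (1649268228096, 109951320064), (5497558138880, 5497558138880)] :=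
  covD_E kA4_eq (.n 2 (.n 2 (.n 2 (.n 2 (.l 0) (.l 0)) (.n 2 (.l 0) (.l 0))) (.n 2 (.n 2 (.l 0) (.l 0)) (.n 0 (.l 0) (.l 0)))) (.n 2 (.n 2 (.n 0 (.l 0) (.l 0)) (.l 0)) (.n 0 (.l 0) (.l 0))))
    [(77882195968, 4581490688), (1649268228096, 109951320064), (5497558138880, 5497558138880)] rfl (by decide +kernel)
theorem A4_c0_t39 : CovD 1 gA4 [(77882195968, 4581490688), (1869170868224, 109951320064), (5497558138880, 5497558138880)] :=
  covD_E kA4_eq (.n 2 (.n 2 (.n 2 (.n 2 (.l 0) (.l 0)) (.n 2 (.l 0) (.l 0))) (.n 2 (.n 2 (.l 0) (.l 0)) (.n 0 (.l 0) (.l 0)))) (.n 2 (.n 2 (.n 0 (.l 0) (.l 0)) (.l 0)) (.n 0 (.l 0) (.l 0))))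
    [(77882195968, 4581490688), (1869170868224, 109951320064), (5497558138880, 5497558138880)] rfl (by decide +kernel)
end

mutual
theorem A4_c0_t43 : CovD 1 gA4 [(87045177344, 4581490688), (1154487287808, 54975660032), (5497558138880, 5497558138880)] :=
  covD_E kA4_eq (.n 2 (.n 2 (.n 2 (.n 2 (.l 0) (.l 0)) (.n 2 (.l 0) (.l 0))) (.n 2 (.n 2 (.l 0) (.l 0)) (.l 0))) (.n 2 (.n 2 (.l 0) (.l 0)) (.n 0 (.l 0) (.l 0))))
    [(87045177344, 4581490688), (1154487287808, 54975660032), (5497558138880, 5497558138880)] rfl (by decide +kernel)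
theorem A4_c0_t44 : CovD 1 gA4 [(87045177344, 4581490688), (1264438607872, 54975660032), (5497558138880, 5497558138880)] :=
  covD_E kA4_eq (.n 2 (.n 2 (.n 2 (.n 2 (.l 0) (.l 0)) (.n 2 (.l 0) (.l 0))) (.n 2 (.n 0 (.l 0) (.l 0)) (.l 0))) (.n 2 (.n 2 (.l 0) (.l 0)) (.l 0)))
    [(87045177344, 4581490688), (1264438607872, 54975660032), (5497558138880, 5497558138880)] rfl (by decide +kernel)
end

mutual
theorem A4_c0_t46 : CovD 1 gA4 [(87045177344, 4581490688), (1429365587968, 109951320064), (2748779069440, 2748779069440)] :=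
  covD_E kA4_eq (.n 2 (.n 0 (.n 2 (.n 2 (.l 0) (.l 0)) (.n 2 (.l 0) (.l 0))) (.n 2 (.n 2 (.l 0) (.l 0)) (.n 2 (.l 0) (.l 0)))) (.n 2 (.n 2 (.l 0) (.l 0)) (.n 0 (.l 0) (.l 0))))
    [(87045177344, 4581490688), (1429365587968, 109951320064), (2748779069440, 2748779069440)] rfl (by decide +kernel)
theorem A4_c0_t47 : CovD 1 gA4 [(87045177344, 4581490688), (1429365587968, 109951320064), (8246337208320, 2748779069440)] :=
  covD_E kA4_eq (.n 2 (.n 2 (.n 0 (.l 0) (.l 0)) (.l 0)) (.n 1 (.l 0) (.l 0)))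
    [(87045177344, 4581490688), (1429365587968, 109951320064), (8246337208320, 2748779069440)] rfl (by decide +kernel)
end

mutual
theorem A4_c0_t49 : CovD 1 gA4 [(87045177344, 4581490688), (1649268228096, 109951320064), (5497558138880, 5497558138880)] :=
  covD_E kA4_eq (.n 2 (.n 2 (.n 2 (.n 2 (.l 0) (.l 0)) (.n 2 (.l 0) (.l 0))) (.n 2 (.n 2 (.l 0) (.l 0)) (.n 0 (.l 0) (.l 0)))) (.n 2 (.n 2 (.n 0 (.l 0) (.l 0)) (.l 0)) (.n 0 (.l 0) (.l 0))))
    [(87045177344, 4581490688), (1649268228096, 109951320064), (5497558138880, 5497558138880)] rfl (by decide +kernel)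
theorem A4_c0_t50 : CovD 1 gA4 [(87045177344, 4581490688), (1869170868224, 109951320064), (5497558138880, 5497558138880)] :=
  covD_E kA4_eq (.n 2 (.n 2 (.n 2 (.n 2 (.l 0) (.l 0)) (.n 2 (.l 0) (.l 0))) (.n 1 (.n 2 (.l 0) (.l 0)) (.n 2 (.l 0) (.l 0)))) (.n 2 (.n 2 (.n 0 (.l 0) (.l 0)) (.l 0)) (.n 0 (.l 0) (.l 0))))
    [(87045177344, 4581490688), (1869170868224, 109951320064), (5497558138880, 5497558138880)] rfl (by decide +kernel)
end

mutual
theorem B4_c0_t3 : CovD 1 gB4 [(57265487872, 2290745344), (1539316908032, 439805280256), (54975791104, 54975791104)] :=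
  covD_E kB4_eq (.n 1 (.n 2 (.n 2 (.l 1) (.l 1)) (.n 2 (.l 1) (.n 1 (.l 1) (.l 1)))) (.n 2 (.n 2 (.n 0 (.l 1) (.l 1)) (.n 2 (.l 1) (.l 1))) (.n 1 (.n 2 (.l 1) (.n 0 (.l 1) (.l 0))) (.n 2 (.n 1 (.l 1) (.l 0)) (.l 0)))))
    [(57265487872, 2290745344), (1539316908032, 439805280256), (54975791104, 54975791104)] rfl (by decide +kernel)
theorem B4_c0_t4 : CovD 1 gB4 [(61846978560, 2290745344), (1539316908032, 439805280256), (54975791104, 54975791104)] :=
  covD_E kB4_eq (.n 1 (.n 2 (.n 2 (.l 1) (.l 1)) (.n 1 (.n 2 (.l 1) (.n 0 (.l 1) (.l 0))) (.n 2 (.l 1) (.l 0)))) (.n 1 (.n 2 (.n 2 (.l 1) (.l 1)) (.n 2 (.l 0) (.l 0))) (.n 2 (.n 2 (.l 0) (.l 0)) (.n 2 (.l 0) (.l 0)))))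
    [(61846978560, 2290745344), (1539316908032, 439805280256), (54975791104, 54975791104)] rfl (by decide +kernel)
end

mutual
theorem B4_c0_t6 : CovD 1 gB4 [(68719214592, 4581490688), (1319414267904, 219902640128), (54975791104, 54975791104)] :=
  covD_E kB4_eq (.n 1 (.n 2 (.n 2 (.l 1) (.n 0 (.l 1) (.l 0))) (.n 0 (.n 2 (.l 0) (.l 0)) (.n 2 (.l 0) (.l 0)))) (.n 0 (.n 2 (.n 2 (.l 0) (.l 0)) (.n 2 (.l 0) (.l 0))) (.n 2 (.n 2 (.l 0) (.l 0)) (.n 2 (.l 0) (.l 0)))))
    [(68719214592, 4581490688), (1319414267904, 219902640128), (54975791104, 54975791104)] rfl (by decide +kernel)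
theorem B4_c0_t7 : CovD 1 gB4 [(68719214592, 4581490688), (1759219548160, 219902640128), (54975791104, 54975791104)] :=
  covD_E kB4_eq (.n 0 (.n 1 (.n 2 (.n 2 (.l 0) (.l 0)) (.n 2 (.l 0) (.l 0))) (.n 2 (.n 2 (.l 0) (.l 0)) (.n 2 (.l 0) (.l 0)))) (.n 1 (.n 2 (.n 2 (.l 0) (.l 0)) (.n 2 (.l 0) (.l 0))) (.n 2 (.n 2 (.l 0) (.l 0)) (.n 2 (.l 0) (.l 0)))))
    [(68719214592, 4581490688), (1759219548160, 219902640128), (54975791104, 54975791104)] rfl (by decide +kernel)
end

mutual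
theorem B4_c0_t10 : CovD 1 gB4 [(77882195968, 4581490688), (1319414267904, 219902640128), (54975791104, 54975791104)] :=
  covD_E kB4_eq (.n 1 (.n 2 (.n 2 (.l 0) (.n 0 (.l 0) (.l 0))) (.n 0 (.n 2 (.l 0) (.l 0)) (.n 1 (.l 0) (.l 0)))) (.n 2 (.n 2 (.l 0) (.n 0 (.l 0) (.l 0))) (.n 0 (.n 1 (.l 0) (.l 0)) (.n 1 (.l 0) (.l 0)))))
    [(77882195968, 4581490688), (1319414267904, 219902640128), (54975791104, 54975791104)] rfl (by decide +kernel)
theorem B4_c0_t11 : CovD 1 gB4 [(77882195968, 4581490688), (1759219548160, 219902640128), (54975791104, 54975791104)] :=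
  covD_E kB4_eq (.n 1 (.n 2 (.n 2 (.l 0) (.l 0)) (.n 2 (.n 0 (.l 0) (.l 0)) (.l 0))) (.n 2 (.n 2 (.l 0) (.l 0)) (.n 2 (.n 0 (.l 0) (.l 0)) (.l 0))))
    [(77882195968, 4581490688), (1759219548160, 219902640128), (54975791104, 54975791104)] rfl (by decide +kernel)
end

mutual
theorem B4_c0_t13 : CovD 1 gB4 [(87045177344, 4581490688), (1319414267904, 219902640128), (54975791104, 54975791104)] :=
  covD_E kB4_eq (.n 1 (.n 2 (.n 2 (.l 0) (.l 0)) (.n 2 (.n 0 (.l 0) (.l 0)) (.l 0))) (.n 2 (.n 2 (.l 0) (.l 0)) (.n 2 (.l 0) (.l 0))))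
    [(87045177344, 4581490688), (1319414267904, 219902640128), (54975791104, 54975791104)] rfl (by decide +kernel)
theorem B4_c0_t14 : CovD 1 gB4 [(87045177344, 4581490688), (1759219548160, 219902640128), (54975791104, 54975791104)] :=
  covD_E kB4_eq (.n 1 (.n 2 (.n 2 (.l 0) (.l 0)) (.n 2 (.l 0) (.l 0))) (.n 2 (.n 2 (.l 0) (.l 0)) (.n 2 (.l 0) (.l 0))))
    [(87045177344, 4581490688), (1759219548160, 219902640128), (54975791104, 54975791104)] rfl (by decide +kernel)
end

mutual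
theorem D4_c0_t3 : CovD 1 gD4 [(59556233216, 4581490688), (1319414267904, 219902640128), (863554764800, 863554764800)] :=
  covD_E kD4_eq (.n 2 (.n 1 (.n 2 (.l 0) (.l 0)) (.n 2 (.l 0) (.l 0))) (.n 2 (.n 1 (.l 0) (.l 0)) (.n 2 (.l 0) (.n 0 (.l 0) (.l 0)))))
    [(59556233216, 4581490688), (1319414267904, 219902640128), (863554764800, 863554764800)] rfl (by decide +kernel)
theorem D4_c0_t4 : CovD 1 gD4 [(59556233216, 4581490688), (1759219548160, 219902640128), (863554764800, 863554764800)] :=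
  covD_E kD4_eq (.n 2 (.n 1 (.n 2 (.l 0) (.l 0)) (.n 2 (.l 0) (.l 0))) (.n 2 (.n 2 (.l 0) (.l 0)) (.n 2 (.l 0) (.n 0 (.l 0) (.l 0)))))
    [(59556233216, 4581490688), (1759219548160, 219902640128), (863554764800, 863554764800)] rfl (by decide +kernel)
end

mutual
theorem D4_c0_t6 : CovD 1 gD4 [(68719214592, 4581490688), (1319414267904, 219902640128), (863554764800, 863554764800)] :=
  covD_E kD4_eq (.n 2 (.n 1 (.n 2 (.l 0) (.l 0)) (.n 2 (.l 0) (.l 0))) (.n 2 (.n 2 (.l 0) (.l 0)) (.n 0 (.n 2 (.l 0) (.l 0)) (.n 2 (.l 0) (.l 0)))))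
    [(68719214592, 4581490688), (1319414267904, 219902640128), (863554764800, 863554764800)] rfl (by decide +kernel)
theorem D4_c0_t7 : CovD 1 gD4 [(68719214592, 4581490688), (1759219548160, 219902640128), (863554764800, 863554764800)] :=
  covD_E kD4_eq (.n 2 (.n 2 (.n 1 (.l 0) (.l 0)) (.n 2 (.l 0) (.l 0))) (.n 2 (.n 2 (.l 0) (.l 0)) (.n 1 (.n 2 (.l 0) (.l 0)) (.n 2 (.l 0) (.l 0)))))
    [(68719214592, 4581490688), (1759219548160, 219902640128), (863554764800, 863554764800)] rfl (by decide +kernel)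
end

mutual
theorem D4_c0_t10 : CovD 1 gD4 [(82463686656, 9162981376), (1209462947840, 109951320064), (863554764800, 863554764800)] :=
  covD_E kD4_eq (.n 2 (.n 2 (.n 0 (.l 0) (.l 0)) (.n 2 (.l 0) (.l 0))) (.n 2 (.n 2 (.l 0) (.n 0 (.l 0) (.l 0))) (.n 0 (.n 2 (.l 0) (.l 0)) (.l 1))))
    [(82463686656, 9162981376), (1209462947840, 109951320064), (863554764800, 863554764800)] rfl (by decide +kernel)
theorem D4_c0_t11 : CovD 1 gD4 [(82463686656, 9162981376), (1429365587968, 109951320064), (863554764800, 863554764800)] :=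
  covD_E kD4_eq (.n 2 (.n 2 (.n 0 (.l 0) (.l 0)) (.n 2 (.l 0) (.l 0))) (.n 2 (.n 2 (.l 0) (.n 0 (.l 0) (.l 0))) (.n 0 (.n 2 (.l 0) (.l 0)) (.l 1))))
    [(82463686656, 9162981376), (1429365587968, 109951320064), (863554764800, 863554764800)] rfl (by decide +kernel)
end

mutual
theorem D4_c0_t13 : CovD 1 gD4 [(82463686656, 9162981376), (1649268228096, 109951320064), (863554764800, 863554764800)] :=
  covD_E kD4_eq (.n 2 (.n 2 (.n 2 (.l 0) (.l 0)) (.n 2 (.l 0) (.l 0))) (.n 0 (.n 2 (.n 1 (.l 0) (.l 0)) (.n 2 (.l 0) (.l 1))) (.n 2 (.n 0 (.l 1) (.l 1)) (.l 1))))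
    [(82463686656, 9162981376), (1649268228096, 109951320064), (863554764800, 863554764800)] rfl (by decide +kernel)
theorem D4_c0_t14 : CovD 1 gD4 [(82463686656, 9162981376), (1869170868224, 109951320064), (863554764800, 863554764800)] :=
  covD_E kD4_eq (.n 0 (.n 2 (.n 2 (.l 0) (.n 1 (.l 0) (.l 0))) (.n 2 (.n 2 (.l 0) (.l 0)) (.l 1))) (.n 2 (.n 1 (.n 2 (.l 0) (.l 1)) (.n 2 (.l 1) (.l 1))) (.n 2 (.l 1) (.l 1))))
    [(82463686656, 9162981376), (1869170868224, 109951320064), (863554764800, 863554764800)] rfl (by decide +kernel)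
end

mutual
theorem E4_c0_t1 : CovD 1 gE4 [(73300705280, 18325962752), (1539316908032, 439805280256), (431777382400, 431777382400)] :=
  covD_E kE4_eq (.n 0 (.n 1 (.n 2 (.l 1) (.n 0 (.l 1) (.l 1))) (.n 2 (.l 1) (.n 0 (.l 1) (.l 1)))) (.n 1 (.n 2 (.l 1) (.l 1)) (.n 2 (.l 1) (.l 1))))
    [(73300705280, 18325962752), (1539316908032, 439805280256), (431777382400, 431777382400)] rfl (by decide +kernel)
theorem E4_c0_t3 : CovD 1 gE4 [(73300705280, 18325962752), (1539316908032, 439805280256), (1079443456000, 215888691200)] :=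
  covD_E kE4_eq (.n 0 (.n 0 (.n 1 (.n 2 (.l 1) (.n 1 (.l 1) (.l 1))) (.n 1 (.n 0 (.l 1) (.l 1)) (.l 1))) (.n 1 (.n 0 (.l 1) (.l 1)) (.l 1))) (.n 1 (.n 0 (.l 1) (.l 1)) (.l 1)))
    [(73300705280, 18325962752), (1539316908032, 439805280256), (1079443456000, 215888691200)] rfl (by decide +kernel)
end

mutual
theorem E4_c0_t5 : CovD 1 gE4 [(64137723904, 9162981376), (1539316908032, 439805280256), (1511220838400, 215888691200)] :=
  covD_E kE4_eq (.n 0 (.n 1 (.n 1 (.n 2 (.l 0) (.l 0)) (.n 2 (.l 0) (.l 0))) (.n 1 (.n 2 (.l 0) (.l 0)) (.n 2 (.l 0) (.l 0)))) (.n 1 (.n 1 (.n 2 (.l 1) (.l 0)) (.n 2 (.l 1) (.l 0))) (.n 2 (.l 1) (.n 1 (.l 0) (.l 1)))))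
    [(64137723904, 9162981376), (1539316908032, 439805280256), (1511220838400, 215888691200)] rfl (by decide +kernel)
theorem E4_c0_t6 : CovD 1 gE4 [(82463686656, 9162981376), (1539316908032, 439805280256), (1511220838400, 215888691200)] :=
  covD_E kE4_eq (.n 0 (.n 1 (.n 1 (.l 1) (.l 1)) (.l 1)) (.n 1 (.l 1) (.l 1)))
    [(82463686656, 9162981376), (1539316908032, 439805280256), (1511220838400, 215888691200)] rfl (by decide +kernel)
end

theorem A4_c0_t5 : CovD 1 gA4 [(59556233216, 4581490688), (1209462947840, 109951320064), (2748779069440, 2748779069440)] :=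
  covD_split 2 (by decide +kernel) A4_c0_t6 A4_c0_t7

theorem A4_c0_t4 : CovD 1 gA4 [(59556233216, 4581490688), (1209462947840, 109951320064), (5497558138880, 5497558138880)] :=
  covD_split 2 (by decide +kernel) A4_c0_t5 A4_c0_t8

theorem A4_c0_t9 : CovD 1 gA4 [(59556233216, 4581490688), (1429365587968, 109951320064), (5497558138880, 5497558138880)] :=
  covD_split 0 (by decide +kernel) A4_c0_t10 A4_c0_t11

theorem A4_c0_t3 : CovD 1 gA4 [(59556233216, 4581490688), (1319414267904, 219902640128), (5497558138880, 5497558138880)] :=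
  covD_split 1 (by decide +kernel) A4_c0_t4 A4_c0_t9

theorem A4_c0_t13 : CovD 1 gA4 [(59556233216, 4581490688), (1649268228096, 109951320064), (5497558138880, 5497558138880)] :=
  covD_split 2 (by decide +kernel) A4_c0_t14 A4_c0_t15

theorem A4_c0_t12 : CovD 1 gA4 [(59556233216, 4581490688), (1759219548160, 219902640128), (5497558138880, 5497558138880)] :=
  covD_split 1 (by decide +kernel) A4_c0_t13 A4_c0_t16

theorem A4_c0_t2 : CovD 1 gA4 [(59556233216, 4581490688), (1539316908032, 439805280256), (5497558138880, 5497558138880)] :=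
  covD_split 1 (by decide +kernel) A4_c0_t3 A4_c0_t12

theorem A4_c0_t19 : CovD 1 gA4 [(68719214592, 4581490688), (1209462947840, 109951320064), (5497558138880, 5497558138880)] :=
  covD_split 2 (by decide +kernel) A4_c0_t20 A4_c0_t21

theorem A4_c0_t22 : CovD 1 gA4 [(68719214592, 4581490688), (1429365587968, 109951320064), (5497558138880, 5497558138880)] :=
  covD_split 0 (by decide +kernel) A4_c0_t23 A4_c0_t24

theorem A4_c0_t18 : CovD 1 gA4 [(68719214592, 4581490688), (1319414267904, 219902640128), (5497558138880, 5497558138880)] :=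
  covD_split 1 (by decide +kernel) A4_c0_t19 A4_c0_t22

theorem A4_c0_t25 : CovD 1 gA4 [(68719214592, 4581490688), (1759219548160, 219902640128), (5497558138880, 5497558138880)] :=
  covD_split 1 (by decide +kernel) A4_c0_t26 A4_c0_t27

theorem A4_c0_t17 : CovD 1 gA4 [(68719214592, 4581490688), (1539316908032, 439805280256), (5497558138880, 5497558138880)] :=
  covD_split 1 (by decide +kernel) A4_c0_t18 A4_c0_t25

theorem A4_c0_t1 : CovD 1 gA4 [(64137723904, 9162981376), (1539316908032, 439805280256), (5497558138880, 5497558138880)] :=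
  covD_split 0 (by decide +kernel) A4_c0_t2 A4_c0_t17

theorem A4_c0_t31 : CovD 1 gA4 [(77882195968, 4581490688), (1209462947840, 109951320064), (5497558138880, 5497558138880)] :=
  covD_split 1 (by decide +kernel) A4_c0_t32 A4_c0_t33

theorem A4_c0_t34 : CovD 1 gA4 [(77882195968, 4581490688), (1429365587968, 109951320064), (5497558138880, 5497558138880)] :=
  covD_split 2 (by decide +kernel) A4_c0_t35 A4_c0_t36

theorem A4_c0_t30 : CovD 1 gA4 [(77882195968, 4581490688), (1319414267904, 219902640128), (5497558138880, 5497558138880)] :=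
  covD_split 1 (by decide +kernel) A4_c0_t31 A4_c0_t34

theorem A4_c0_t37 : CovD 1 gA4 [(77882195968, 4581490688), (1759219548160, 219902640128), (5497558138880, 5497558138880)] :=
  covD_split 1 (by decide +kernel) A4_c0_t38 A4_c0_t39

theorem A4_c0_t29 : CovD 1 gA4 [(77882195968, 4581490688), (1539316908032, 439805280256), (5497558138880, 5497558138880)] :=
  covD_split 1 (by decide +kernel) A4_c0_t30 A4_c0_t37

theorem A4_c0_t42 : CovD 1 gA4 [(87045177344, 4581490688), (1209462947840, 109951320064), (5497558138880, 5497558138880)] :=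
  covD_split 1 (by decide +kernel) A4_c0_t43 A4_c0_t44

theorem A4_c0_t45 : CovD 1 gA4 [(87045177344, 4581490688), (1429365587968, 109951320064), (5497558138880, 5497558138880)] :=
  covD_split 2 (by decide +kernel) A4_c0_t46 A4_c0_t47

theorem A4_c0_t41 : CovD 1 gA4 [(87045177344, 4581490688), (1319414267904, 219902640128), (5497558138880, 5497558138880)] :=
  covD_split 1 (by decide +kernel) A4_c0_t42 A4_c0_t45

theorem A4_c0_t48 : CovD 1 gA4 [(87045177344, 4581490688), (1759219548160, 219902640128), (5497558138880, 5497558138880)] :=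
  covD_split 1 (by decide +kernel) A4_c0_t49 A4_c0_t50

theorem A4_c0_t40 : CovD 1 gA4 [(87045177344, 4581490688), (1539316908032, 439805280256), (5497558138880, 5497558138880)] :=
  covD_split 1 (by decide +kernel) A4_c0_t41 A4_c0_t48

theorem A4_c0_t28 : CovD 1 gA4 [(82463686656, 9162981376), (1539316908032, 439805280256), (5497558138880, 5497558138880)] :=
  covD_split 0 (by decide +kernel) A4_c0_t29 A4_c0_t40

theorem A4_c0 : CovD 1 gA4 [(73300705280, 18325962752), (1539316908032, 439805280256), (5497558138880, 5497558138880)] :=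
  covD_split 0 (by decide +kernel) A4_c0_t1 A4_c0_t28

theorem B4_c0_t2 : CovD 1 gB4 [(59556233216, 4581490688), (1539316908032, 439805280256), (54975791104, 54975791104)] :=
  covD_split 0 (by decide +kernel) B4_c0_t3 B4_c0_t4

theorem B4_c0_t5 : CovD 1 gB4 [(68719214592, 4581490688), (1539316908032, 439805280256), (54975791104, 54975791104)] :=
  covD_split 1 (by decide +kernel) B4_c0_t6 B4_c0_t7

theorem B4_c0_t1 : CovD 1 gB4 [(64137723904, 9162981376), (1539316908032, 439805280256), (54975791104, 54975791104)] :=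
  covD_split 0 (by decide +kernel) B4_c0_t2 B4_c0_t5

theorem B4_c0_t9 : CovD 1 gB4 [(77882195968, 4581490688), (1539316908032, 439805280256), (54975791104, 54975791104)] :=
  covD_split 1 (by decide +kernel) B4_c0_t10 B4_c0_t11

theorem B4_c0_t12 : CovD 1 gB4 [(87045177344, 4581490688), (1539316908032, 439805280256), (54975791104, 54975791104)] :=
  covD_split 1 (by decide +kernel) B4_c0_t13 B4_c0_t14

theorem B4_c0_t8 : CovD 1 gB4 [(82463686656, 9162981376), (1539316908032, 439805280256), (54975791104, 54975791104)] :=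
  covD_split 0 (by decide +kernel) B4_c0_t9 B4_c0_t12

theorem B4_c0 : CovD 1 gB4 [(73300705280, 18325962752), (1539316908032, 439805280256), (54975791104, 54975791104)] :=
  covD_split 0 (by decide +kernel) B4_c0_t1 B4_c0_t8

theorem D4_c0_t2 : CovD 1 gD4 [(59556233216, 4581490688), (1539316908032, 439805280256), (863554764800, 863554764800)] :=
  covD_split 1 (by decide +kernel) D4_c0_t3 D4_c0_t4

theorem D4_c0_t5 : CovD 1 gD4 [(68719214592, 4581490688), (1539316908032, 439805280256), (863554764800, 863554764800)] :=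
  covD_split 1 (by decide +kernel) D4_c0_t6 D4_c0_t7

theorem D4_c0_t1 : CovD 1 gD4 [(64137723904, 9162981376), (1539316908032, 439805280256), (863554764800, 863554764800)] :=
  covD_split 0 (by decide +kernel) D4_c0_t2 D4_c0_t5

theorem D4_c0_t9 : CovD 1 gD4 [(82463686656, 9162981376), (1319414267904, 219902640128), (863554764800, 863554764800)] :=
  covD_split 1 (by decide +kernel) D4_c0_t10 D4_c0_t11

theorem D4_c0_t12 : CovD 1 gD4 [(82463686656, 9162981376), (1759219548160, 219902640128), (863554764800, 863554764800)] :=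
  covD_split 1 (by decide +kernel) D4_c0_t13 D4_c0_t14

theorem D4_c0_t8 : CovD 1 gD4 [(82463686656, 9162981376), (1539316908032, 439805280256), (863554764800, 863554764800)] :=
  covD_split 1 (by decide +kernel) D4_c0_t9 D4_c0_t12

theorem D4_c0 : CovD 1 gD4 [(73300705280, 18325962752), (1539316908032, 439805280256), (863554764800, 863554764800)] :=
  covD_split 0 (by decide +kernel) D4_c0_t1 D4_c0_t8

theorem E4_c0_t4 : CovD 1 gE4 [(73300705280, 18325962752), (1539316908032, 439805280256), (1511220838400, 215888691200)] :=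
  covD_split 0 (by decide +kernel) E4_c0_t5 E4_c0_t6

theorem E4_c0_t2 : CovD 1 gE4 [(73300705280, 18325962752), (1539316908032, 439805280256), (1295332147200, 431777382400)] :=
  covD_split 2 (by decide +kernel) E4_c0_t3 E4_c0_t4

theorem E4_c0 : CovD 1 gE4 [(73300705280, 18325962752), (1539316908032, 439805280256), (863554764800, 863554764800)] :=
  covD_split 2 (by decide +kernel) E4_c0_t1 E4_c0_t2

end Pool.Agent.helper14.NR.E12d
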