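import Pool.Agent.helper14.NR.E12d.Tab
import Pool.Agent.helper14.NR.Share

/-!
Generated: programs and compiled forms.
-/

namespace Pool.Agent.helper14.NR.E12d

open Pool.Agent.helper31.IA (Z)
open Pool.Agent.helper31.IX (Op XOps runX Cov CovD cov_split covD_split)
open Pool.Agent.helper31.IC (TD)
open Pool.Agent.helper63.RG (reloc)
open Pool.Agent.helper63.NF hiding TD
open Pool.Agent.helper14.CF (xE covD_E)
open Pool.Agent.helper14.NR (share)

def p_Z_0 : List Op := [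
  .pos 0,
  .inv 0,
  .mul 1 2,
  .scale ⟨2199023255552, 0, 0, 0⟩ 0,
  .exp 1,
  .neg 2,
  .exp 0,
  .mul 2 2,
  .mul 1 1,
  .mul 0 0,
  .sub 5 3,
  .add 6 4,
  .mul 1 0,
  .scale ⟨549755813888, 0, 0, 0⟩ 0,
  .mul 3 3,
  .mul 1 13,
  .scale ⟨2199023255552, 0, 0, 0⟩ 16,
  .neg 0,
  .exp 0,
  .const ⟨1099511627776, 0, 0, 0⟩,
  .add 1 0,
  .pos 0,
  .inv 0,
  .mul 3 0,
  .add 15 14,
  .scale ⟨549755813888, 0, 0, 0⟩ 0,
  .const ⟨73282879488, 0, 0, 0⟩,
  .sub 25 0,
  .const ⟨1537598291968, 0, 0, 0⟩,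
  .sub 28 0,
  .mul 0 0,
  .mul 0 1,
  .mul 4 2,
  .mul 5 2,
  .mul 6 6,
  .mul 0 5,
  .mul 1 8,
  .scale ⟨107522741632, 0, 0, 0⟩ 7,
  .scale ⟨0, 1614559552, 0, 0⟩ 7,
  .add 1 0,
  .scale ⟨1022564928, 0, 0, 0⟩ 8,
  .add 1 0,
  .scale ⟨0, 2157439619136, 0, 0⟩ 14,
  .add 1 0,
  .scale ⟨0, 268912681216, 0, 0⟩ 11,
  .add 1 0,
  .scale ⟨0, 125622035136, 0, 0⟩ 12,
  .add 1 0,
  .scale ⟨6828666823552, 0, 0, 0⟩ 13,
  .add 1 0,
  .scale ⟨1862946281280, 0, 0, 0⟩ 14,
  .add 1 0,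
  .scale ⟨35751019374080, 0, 0, 0⟩ 15,
  .add 1 0,
  .const ⟨456959628416, 0, 0, 0⟩,
  .add 1 0,
  .scale ⟨0, 8318906112, 0, 0⟩ 26,
  .scale ⟨930196544, 0, 0, 0⟩ 26,
  .add 1 0,
  .scale ⟨208662228480, 0, 0, 0⟩ 31,
  .add 1 0,
  .scale ⟨27374535488, 0, 0, 0⟩ 28,
  .add 1 0,
  .scale ⟨0, 638281273984, 0, 0⟩ 28,
  .add 1 0,
  .const ⟨16004211776, 0, 0, 0⟩,
  .add 1 0,
  .scale ⟨289131136, 0, 0, 0⟩ 37,
  .scale ⟨0, 12713015040, 0, 0⟩ 40,
  .add 1 0,
  .const ⟨0, 1685933568, 0, 0⟩,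
  .add 1 0,
  .scale ⟨0, 0, 1099511627776, 0⟩ 72,
  .scale ⟨549755813888, 0, 0, 0⟩ 0,
  .add 0 53,
  .inv 0,
  .mul 3 0,
  .scale ⟨217772954240, 0, 0, 0⟩ 0,
  .const ⟨0, 26778413056, 0, 0⟩,
  .add 1 0,
  .mul 3 0,
  .const ⟨0, 112009813312, 0, 0⟩,
  .add 1 0,
  .mul 6 0,
  .const ⟨642012230720, 0, 0, 0⟩,
  .add 1 0,
  .mul 9 0,
  .scale ⟨0, 304631191296, 0, 0⟩ 57,
  .scale ⟨0, 129481895808, 0, 0⟩ 60,
  .add 1 0,
  .const ⟨0, 525760305088, 0, 0⟩,
  .add 1 0,
  .add 5 0,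
  .mul 16 0,
  .scale ⟨972564255552, 0, 0, 0⟩ 64,
  .scale ⟨2703271077376, 0, 0, 0⟩ 67,
  .add 1 0,
  .const ⟨134295812288, 0, 0, 0⟩,
  .add 1 0,
  .add 5 0,
  .mul 23 0,
  .scale ⟨0, 1586979548864, 0, 0⟩ 71,
  .scale ⟨0, 17747420195392, 0, 0⟩ 74,
  .add 1 0,
  .const ⟨378817531776, 0, 0, 0⟩,
  .add 1 0,
  .add 5 0,
  .mul 30 0,
  .scale ⟨1482381693184, 0, 0, 0⟩ 78,
  .scale ⟨0, 246956173056, 0, 0⟩ 78,
  .add 1 0,
  .scale ⟨8427066836800, 0, 0, 0⟩ 83,
  .add 1 0,
  .scale ⟨0, 6967740992576, 0, 0⟩ 80,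
  .add 1 0,
  .scale ⟨0, 64379744240896, 0, 0⟩ 80,
  .add 1 0,
  .const ⟨79007768000, 0, 0, 0⟩,
  .add 1 0,
  .add 11 0,
  .mul 43 0,
  .scale ⟨0, 816542781120, 0, 0⟩ 91,
  .scale ⟨318013445888, 0, 0, 0⟩ 91,
  .add 1 0,
  .scale ⟨0, 20094453066176, 0, 0⟩ 96,
  .add 1 0,
  .scale ⟨9082346836224, 0, 0, 0⟩ 93,
  .add 1 0,
  .scale ⟨49619403227456, 0, 0, 0⟩ 93,
  .add 1 0,
  .const ⟨575923226432, 0, 0, 0⟩,
  .add 1 0,
  .add 11 0,
  .mul 56 0,
  .scale ⟨104456074112, 0, 0, 0⟩ 104,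
  .scale ⟨0, 277634378624, 0, 0⟩ 104,
  .add 1 0,
  .scale ⟨465434602048, 0, 0, 0⟩ 109,
  .add 1 0,
  .scale ⟨0, 8993279142080, 0, 0⟩ 106,
  .add 1 0,
  .scale ⟨0, 38995738986752, 0, 0⟩ 106,
  .add 1 0,
  .const ⟨3694436288256, 0, 0, 0⟩,
  .add 1 0,
  .add 11 0,
  .mul 69 0,
  .scale ⟨333289663296, 0, 0, 0⟩ 117,
  .scale ⟨16329033920, 0, 0, 0⟩ 117,
  .add 1 0,
  .scale ⟨0, 26344617472, 0, 0⟩ 118,
  .add 1 0,
  .scale ⟨6463448512576, 0, 0, 0⟩ 124,
  .add 1 0,
  .scale ⟨4668743743552, 0, 0, 0⟩ 121,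
  .add 1 0,
  .scale ⟨0, 1258512691136, 0, 0⟩ 122,
  .add 1 0,
  .scale ⟨0, 10024621052992, 0, 0⟩ 123,
  .add 1 0,
  .scale ⟨0, 16404252519936, 0, 0⟩ 124,
  .add 1 0,
  .scale ⟨104589456706688, 0, 0, 0⟩ 125,
  .add 1 0,
  .const ⟨424610093504, 0, 0, 0⟩,
  .add 1 0,
  .mul 0 165,
  .add 20 0,
  .mul 166 166,
  .scale ⟨5703716569088, 0, 0, 0⟩ 0,
  .const ⟨1726576852992, 0, 0, 0⟩,
  .add 1 0,
  .scale ⟨4398046511104, 0, 0, 0⟩ 171,
  .mul 96 1,
  .scale ⟨4398046511104, 0, 0, 0⟩ 0,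
  .add 2 0,
  .scale ⟨0, 296918253568, 0, 0⟩ 146,
  .scale ⟨0, 729124765696, 0, 0⟩ 146,
  .add 1 0,
  .scale ⟨1471889080320, 0, 0, 0⟩ 147,
  .add 1 0,
  .scale ⟨2813365518336, 0, 0, 0⟩ 153,
  .add 1 0,
  .scale ⟨294585171968, 0, 0, 0⟩ 150,
  .add 1 0,
  .const ⟨857366986752, 0, 0, 0⟩,
  .add 1 0,
  .scale ⟨7421703487488, 0, 0, 0⟩ 182,
  .neg 0,
  .exp 0,
  .mul 3 0,
  .mul 0 15,
  .scale ⟨879662989312, 0, 0, 0⟩ 16,
  .add 0 172,
  .pos 0,
  .inv 0,
  .mul 3 0,
  .neg 28,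
  .exp 0,
  .add 0 177,
  .pos 0,
  .log 0,
  .mul 4 201,
  .sub 180 0,
  .log 0,
  .mul 5 2,
  .add 0 183,
  .pos 0,
  .log 0,
  .scale ⟨274877906944, 0, 0, 0⟩ 190,
  .log 185,
  .add 207 0,
  .sub 9 3,
  .sub 0 1,
  .mul 0 209,
  .exp 0,
  .sub 7 10,
  .add 0 46,
  .mul 0 213,
  .exp 0,
  .mul 215 45,
  .scale ⟨1649267441664, 0, 0, 0⟩ 11,
  .add 0 198,
  .mul 2 0,
  .mul 221 0,
  .scale ⟨0, 0, 1099511627776, 0⟩ 0,
  .mul 0 0,
  .sub 17 0,
  .mul 12 12,
  .mul 0 1,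
  .scale ⟨4398046511104, 0, 0, 0⟩ 0,
  .sub 207 0,
  .log 0,
  .scale ⟨549755813888, 0, 0, 0⟩ 0,
  .exp 0,
  .mul 19 9,
  .mul 0 1,
  .mul 27 17,
  .scale ⟨2199023255552, 0, 0, 0⟩ 10,
  .add 1 0,
  .mul 11 0,
  .add 0 4,
  .mul 22 0,
  .scale ⟨4398046511104, 0, 0, 0⟩ 0,
  .add 0 220,
  .log 0,
  .scale ⟨549755813888, 0, 0, 0⟩ 0,
  .exp 0,
  .sub 0 219,
  .mul 229 229,
  .const ⟨18047452577792, 0, 0, 0⟩,
  .add 1 0,
  .pos 0,
  .inv 0,
  .mul 4 247,
  .mul 0 0,
  .sub 0 5,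
  .mul 0 3,
  .lt 0 1099510579200,
  .mul 41 31,
  .scale ⟨2199023255552, 0, 0, 0⟩ 0,
  .sub 24 0,
  .pos 0,
  .mul 34 244,
  .add 232 0,
  .inv 0,
  .sub 234 0,
  .sub 15 0,
  .scale ⟨0, 136592097280, 0, 0⟩ 232,
  .scale ⟨0, 205400375296, 0, 0⟩ 232,
  .add 1 0,
  .scale ⟨122139967488, 0, 0, 0⟩ 233,
  .add 1 0,
  .scale ⟨1596310880256, 0, 0, 0⟩ 239,
  .add 1 0,
  .scale ⟨14380816334848, 0, 0, 0⟩ 236,
  .add 1 0,
  .const ⟨1866776313856, 0, 0, 0⟩,
  .add 1 0,
  .add 15 258,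
  .inv 0,
  .mul 265 16,
  .mul 1 0,
  .mul 0 15,
  .inv 273,
  .mul 264 0,
  .scale ⟨2199023255552, 0, 0, 0⟩ 0,
  .mul 0 3,
  .add 4 261,
  .inv 0,
  .mul 7 0,
  .mul 0 276,
  .mul 0 277,
  .inv 14,
  .mul 1 0,
  .mul 7 0,
  .lt 0 1099510579200,
  .add 264 44,
  .pos 0,
  .inv 0,
  .mul 0 0,
  .sub 272 0,
  .mul 0 291,
  .sub 284 2,
  .mul 0 293,
  .scale ⟨0, 25340307046400, 0, 0⟩ 269,
  .const ⟨0, 3376918036480, 0, 0⟩,
  .add 1 0,
  .sub 5 0,
  .pos 0,
  .inv 0,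
  .scale ⟨31362867265536, 0, 0, 0⟩ 0,
  .add 2 0,
  .pos 0,
  .inv 0,
  .scale ⟨0, 644724109184, 0, 0⟩ 275,
  .scale ⟨8243294473600, 0, 0, 0⟩ 278,
  .add 1 0,
  .const ⟨0, 26976642304, 0, 0⟩,
  .add 1 0,
  .scale ⟨0, 1608312064512, 0, 0⟩ 280,
  .scale ⟨92190818541376, 0, 0, 0⟩ 283,
  .add 1 0,
  .const ⟨5178715130048, 0, 0, 0⟩,
  .add 1 0,
  .mul 13 0,
  .add 6 0,
  .mul 0 12,
  .scale ⟨0, 2920512, 0, 0⟩ 23,
  .const ⟨93342144, 0, 0, 0⟩,
  .add 1 0,
  .mul 26 0,
  .add 0 250,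
  .mul 28 0,
  .add 0 257,
  .mul 30 0,
  .add 8 270,
  .add 1 0,
  .mul 31 0,
  .neg 0,
  .exp 0,
  .sub 0 310,
  .add 0 311,
  .mul 313 0,
  .add 0 313,
  .pos 0,
  .mul 311 3,
  .add 0 315,
  .pos 0,
  .log 0,
  .add 92 323,
  .add 171 139,
  .sub 0 132,
  .sub 0 3,
  .scale ⟨549755813888, 0, 0, 0⟩ 339,
  .mul 100 0,
  .sub 2 0,
  .exp 0,
  .scale ⟨0, 45051281408, 0, 0⟩ 269,
  .const ⟨116860518400, 0, 0, 0⟩,
  .add 1 0,
  .mul 272 0,
  .const ⟨0, 168733900800, 0, 0⟩,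
  .add 1 0,
  .mul 275 0,
  .scale ⟨0, 34817310720, 0, 0⟩ 323,
  .scale ⟨0, 990428332032, 0, 0⟩ 326,
  .add 1 0,
  .const ⟨161828569088, 0, 0, 0⟩,
  .add 1 0,
  .add 5 0,
  .mul 282 0,
  .scale ⟨367984640, 0, 0, 0⟩ 330,
  .scale ⟨4671764955136, 0, 0, 0⟩ 333,
  .add 1 0,
  .const ⟨228564008960, 0, 0, 0⟩,
  .add 1 0,
  .add 5 0,
  .mul 289 0,
  .scale ⟨97559642112, 0, 0, 0⟩ 337,
  .scale ⟨20337000448, 0, 0, 0⟩ 337,
  .add 1 0,
  .scale ⟨1534337613824, 0, 0, 0⟩ 342,
  .add 1 0,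
  .scale ⟨2567040925696, 0, 0, 0⟩ 339,
  .add 1 0,
  .scale ⟨14305624195072, 0, 0, 0⟩ 339,
  .add 1 0,
  .const ⟨1138765135872, 0, 0, 0⟩,
  .add 1 0,
  .add 11 0,
  .inv 187,
  .mul 0 186,
  .scale ⟨294518784, 0, 0, 0⟩ 351,
  .scale ⟨524288, 0, 0, 0⟩ 351,
  .add 1 0,
  .scale ⟨0, 196608, 0, 0⟩ 352,
  .add 1 0,
  .scale ⟨6180110336, 0, 0, 0⟩ 358,
  .add 1 0,
  .scale ⟨4442816512, 0, 0, 0⟩ 355,
  .add 1 0,
  .const ⟨88371822592, 0, 0, 0⟩,
  .add 1 0,
  .scale ⟨1786706395136, 0, 0, 0⟩ 387,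
  .neg 0,
  .exp 0,
  .mul 3 0,
  .scale ⟨2199023255552, 0, 0, 0⟩ 0,
  .mul 0 58,
  .scale ⟨879662989312, 0, 0, 0⟩ 152,
  .add 0 397,
  .inv 0,
  .mul 3 0,
  .const ⟨0, 0, 0, 0⟩,
  .mul 24 57,
  .mul 0 70,
  .mul 0 3,
  .mul 0 25,
  .rball 4 0,
  .sub 387 29,
  .mul 410 0,
  .sub 389 64,
  .mul 0 30,
  .mul 33 0,
  .add 3 0,
  .add 0 6,
  .lt 0 1099510579200]

set_option maxRecDepth 1000000 in
noncomputable def c_Z_0 {α : Type} (cst : Z → α) (add sub mul : α → α → α) (scale : Z → α → α)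
    (neg inv exp log : α → α) (ok : α → Bool) (isPos : Nat → α → Bool) (isLt : α → Nat → Bool)
    (ball : Nat → α → α) (rball : α → α → α) : List α → Bool
  | [x0, x1, x2, x3] =>
  isPos 3 x0 && (
  let v0 := inv x0; ok v0 && (
  let v1 := mul x0 x1; ok v1 && (
  let v2 := scale ⟨2199023255552, 0, 0, 0⟩ v1; ok v2 && (
  let v3 := exp v1; ok v3 && (
  let v4 := neg v1; ok v4 && (
  let v5 := exp v4; ok v5 && (
  let v6 := mul v3 v3; ok v6 && (
  let v7 := mul v5 v5; ok v7 && (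
  let v8 := mul v7 v7; ok v8 && (
  let v9 := sub v3 v5; ok v9 && (
  let v10 := add v3 v5; ok v10 && (
  let v11 := mul v9 v10; ok v11 && (
  let v12 := scale ⟨549755813888, 0, 0, 0⟩ v11; ok v12 && (
  let v13 := mul v9 v9; ok v13 && (
  let v14 := mul v12 v0; ok v14 && (
  let v15 := scale ⟨2199023255552, 0, 0, 0⟩ x1; ok v15 && (
  let v16 := neg v15; ok v16 && (
  let v17 := exp v16; ok v17 && (
  let v18 := cst ⟨1099511627776, 0, 0, 0⟩; ok v18 && (
  let v19 := add v17 v18; ok v19 && (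
  isPos 3 v19 && (
  let v20 := inv v19; ok v20 && (
  let v21 := mul v17 v20; ok v21 && (
  let v22 := add v6 v7; ok v22 && (
  let v23 := scale ⟨549755813888, 0, 0, 0⟩ v22; ok v23 && (
  let v24 := cst ⟨73282879488, 0, 0, 0⟩; ok v24 && (
  let v25 := sub x0 v24; ok v25 && (
  let v26 := cst ⟨1537598291968, 0, 0, 0⟩; ok v26 && (
  let v27 := sub x1 v26; ok v27 && (
  let v28 := mul v27 v27; ok v28 && (
  let v29 := mul v28 v27; ok v29 && (
  let v30 := mul v25 v27; ok v30 && (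
  let v31 := mul v25 v28; ok v31 && (
  let v32 := mul v25 v25; ok v32 && (
  let v33 := mul v32 v27; ok v33 && (
  let v34 := mul v32 v25; ok v34 && (
  let v35 := scale ⟨107522741632, 0, 0, 0⟩ v27; ok v35 && (
  let v36 := scale ⟨0, 1614559552, 0, 0⟩ v28; ok v36 && (
  let v37 := add v35 v36; ok v37 && (
  let v38 := scale ⟨1022564928, 0, 0, 0⟩ v29; ok v38 && (
  let v39 := add v37 v38; ok v39 && (
  let v40 := scale ⟨0, 2157439619136, 0, 0⟩ v25; ok v40 && (
  let v41 := add v39 v40; ok v41 && (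
  let v42 := scale ⟨0, 268912681216, 0, 0⟩ v30; ok v42 && (
  let v43 := add v41 v42; ok v43 && (
  let v44 := scale ⟨0, 125622035136, 0, 0⟩ v31; ok v44 && (
  let v45 := add v43 v44; ok v45 && (
  let v46 := scale ⟨6828666823552, 0, 0, 0⟩ v32; ok v46 && (
  let v47 := add v45 v46; ok v47 && (
  let v48 := scale ⟨1862946281280, 0, 0, 0⟩ v33; ok v48 && (
  let v49 := add v47 v48; ok v49 && (
  let v50 := scale ⟨35751019374080, 0, 0, 0⟩ v34; ok v50 && (
  let v51 := add v49 v50; ok v51 && (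
  let v52 := cst ⟨456959628416, 0, 0, 0⟩; ok v52 && (
  let v53 := add v51 v52; ok v53 && (
  let v54 := scale ⟨0, 8318906112, 0, 0⟩ v27; ok v54 && (
  let v55 := scale ⟨930196544, 0, 0, 0⟩ v28; ok v55 && (
  let v56 := add v54 v55; ok v56 && (
  let v57 := scale ⟨208662228480, 0, 0, 0⟩ v25; ok v57 && (
  let v58 := add v56 v57; ok v58 && (
  let v59 := scale ⟨27374535488, 0, 0, 0⟩ v30; ok v59 && (
  let v60 := add v58 v59; ok v60 && (
  let v61 := scale ⟨0, 638281273984, 0, 0⟩ v32; ok v61 && (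
  let v62 := add v60 v61; ok v62 && (
  let v63 := cst ⟨16004211776, 0, 0, 0⟩; ok v63 && (
  let v64 := add v62 v63; ok v64 && (
  let v65 := scale ⟨289131136, 0, 0, 0⟩ v27; ok v65 && (
  let v66 := scale ⟨0, 12713015040, 0, 0⟩ v25; ok v66 && (
  let v67 := add v65 v66; ok v67 && (
  let v68 := cst ⟨0, 1685933568, 0, 0⟩; ok v68 && (
  let v69 := add v67 v68; ok v69 && (
  let v70 := scale ⟨0, 0, 1099511627776, 0⟩ x2; ok v70 && (
  let v71 := scale ⟨549755813888, 0, 0, 0⟩ v70; ok v71 && (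
  let v72 := add v71 v18; ok v72 && (
  let v73 := inv v72; ok v73 && (
  let v74 := mul v70 v73; ok v74 && (
  let v75 := scale ⟨217772954240, 0, 0, 0⟩ v74; ok v75 && (
  let v76 := cst ⟨0, 26778413056, 0, 0⟩; ok v76 && (
  let v77 := add v75 v76; ok v77 && (
  let v78 := mul v74 v77; ok v78 && (
  let v79 := cst ⟨0, 112009813312, 0, 0⟩; ok v79 && (
  let v80 := add v78 v79; ok v80 && (
  let v81 := mul v74 v80; ok v81 && (
  let v82 := cst ⟨642012230720, 0, 0, 0⟩; ok v82 && (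
  let v83 := add v81 v82; ok v83 && (
  let v84 := mul v74 v83; ok v84 && (
  let v85 := scale ⟨0, 304631191296, 0, 0⟩ v27; ok v85 && (
  let v86 := scale ⟨0, 129481895808, 0, 0⟩ v25; ok v86 && (
  let v87 := add v85 v86; ok v87 && (
  let v88 := cst ⟨0, 525760305088, 0, 0⟩; ok v88 && (
  let v89 := add v87 v88; ok v89 && (
  let v90 := add v84 v89; ok v90 && (
  let v91 := mul v74 v90; ok v91 && (
  let v92 := scale ⟨972564255552, 0, 0, 0⟩ v27; ok v92 && (
  let v93 := scale ⟨2703271077376, 0, 0, 0⟩ v25; ok v93 && (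
  let v94 := add v92 v93; ok v94 && (
  let v95 := cst ⟨134295812288, 0, 0, 0⟩; ok v95 && (
  let v96 := add v94 v95; ok v96 && (
  let v97 := add v91 v96; ok v97 && (
  let v98 := mul v74 v97; ok v98 && (
  let v99 := scale ⟨0, 1586979548864, 0, 0⟩ v27; ok v99 && (
  let v100 := scale ⟨0, 17747420195392, 0, 0⟩ v25; ok v100 && (
  let v101 := add v99 v100; ok v101 && (
  let v102 := cst ⟨378817531776, 0, 0, 0⟩; ok v102 && (
  let v103 := add v101 v102; ok v103 && (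
  let v104 := add v98 v103; ok v104 && (
  let v105 := mul v74 v104; ok v105 && (
  let v106 := scale ⟨1482381693184, 0, 0, 0⟩ v27; ok v106 && (
  let v107 := scale ⟨0, 246956173056, 0, 0⟩ v28; ok v107 && (
  let v108 := add v106 v107; ok v108 && (
  let v109 := scale ⟨8427066836800, 0, 0, 0⟩ v25; ok v109 && (
  let v110 := add v108 v109; ok v110 && (
  let v111 := scale ⟨0, 6967740992576, 0, 0⟩ v30; ok v111 && (
  let v112 := add v110 v111; ok v112 && (
  let v113 := scale ⟨0, 64379744240896, 0, 0⟩ v32; ok v113 && (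
  let v114 := add v112 v113; ok v114 && (
  let v115 := cst ⟨79007768000, 0, 0, 0⟩; ok v115 && (
  let v116 := add v114 v115; ok v116 && (
  let v117 := add v105 v116; ok v117 && (
  let v118 := mul v74 v117; ok v118 && (
  let v119 := scale ⟨0, 816542781120, 0, 0⟩ v27; ok v119 && (
  let v120 := scale ⟨318013445888, 0, 0, 0⟩ v28; ok v120 && (
  let v121 := add v119 v120; ok v121 && (
  let v122 := scale ⟨0, 20094453066176, 0, 0⟩ v25; ok v122 && (
  let v123 := add v121 v122; ok v123 && (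
  let v124 := scale ⟨9082346836224, 0, 0, 0⟩ v30; ok v124 && (
  let v125 := add v123 v124; ok v125 && (
  let v126 := scale ⟨49619403227456, 0, 0, 0⟩ v32; ok v126 && (
  let v127 := add v125 v126; ok v127 && (
  let v128 := cst ⟨575923226432, 0, 0, 0⟩; ok v128 && (
  let v129 := add v127 v128; ok v129 && (
  let v130 := add v118 v129; ok v130 && (
  let v131 := mul v74 v130; ok v131 && (
  let v132 := scale ⟨104456074112, 0, 0, 0⟩ v27; ok v132 && (
  let v133 := scale ⟨0, 277634378624, 0, 0⟩ v28; ok v133 && (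
  let v134 := add v132 v133; ok v134 && (
  let v135 := scale ⟨465434602048, 0, 0, 0⟩ v25; ok v135 && (
  let v136 := add v134 v135; ok v136 && (
  let v137 := scale ⟨0, 8993279142080, 0, 0⟩ v30; ok v137 && (
  let v138 := add v136 v137; ok v138 && (
  let v139 := scale ⟨0, 38995738986752, 0, 0⟩ v32; ok v139 && (
  let v140 := add v138 v139; ok v140 && (
  let v141 := cst ⟨3694436288256, 0, 0, 0⟩; ok v141 && (
  let v142 := add v140 v141; ok v142 && (
  let v143 := add v131 v142; ok v143 && (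
  let v144 := mul v74 v143; ok v144 && (
  let v145 := scale ⟨333289663296, 0, 0, 0⟩ v27; ok v145 && (
  let v146 := scale ⟨16329033920, 0, 0, 0⟩ v28; ok v146 && (
  let v147 := add v145 v146; ok v147 && (
  let v148 := scale ⟨0, 26344617472, 0, 0⟩ v29; ok v148 && (
  let v149 := add v147 v148; ok v149 && (
  let v150 := scale ⟨6463448512576, 0, 0, 0⟩ v25; ok v150 && (
  let v151 := add v149 v150; ok v151 && (
  let v152 := scale ⟨4668743743552, 0, 0, 0⟩ v30; ok v152 && (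
  let v153 := add v151 v152; ok v153 && (
  let v154 := scale ⟨0, 1258512691136, 0, 0⟩ v31; ok v154 && (
  let v155 := add v153 v154; ok v155 && (
  let v156 := scale ⟨0, 10024621052992, 0, 0⟩ v32; ok v156 && (
  let v157 := add v155 v156; ok v157 && (
  let v158 := scale ⟨0, 16404252519936, 0, 0⟩ v33; ok v158 && (
  let v159 := add v157 v158; ok v159 && (
  let v160 := scale ⟨104589456706688, 0, 0, 0⟩ v34; ok v160 && (
  let v161 := add v159 v160; ok v161 && (
  let v162 := cst ⟨424610093504, 0, 0, 0⟩; ok v162 && (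
  let v163 := add v161 v162; ok v163 && (
  let v164 := mul v163 x1; ok v164 && (
  let v165 := add v144 v164; ok v165 && (
  let v166 := mul x0 x0; ok v166 && (
  let v167 := scale ⟨5703716569088, 0, 0, 0⟩ v166; ok v167 && (
  let v168 := cst ⟨1726576852992, 0, 0, 0⟩; ok v168 && (
  let v169 := add v167 v168; ok v169 && (
  let v170 := scale ⟨4398046511104, 0, 0, 0⟩ x1; ok v170 && (
  let v171 := mul v74 v169; ok v171 && (
  let v172 := scale ⟨4398046511104, 0, 0, 0⟩ v171; ok v172 && (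
  let v173 := add v170 v172; ok v173 && (
  let v174 := scale ⟨0, 296918253568, 0, 0⟩ v27; ok v174 && (
  let v175 := scale ⟨0, 729124765696, 0, 0⟩ v28; ok v175 && (
  let v176 := add v174 v175; ok v176 && (
  let v177 := scale ⟨1471889080320, 0, 0, 0⟩ v29; ok v177 && (
  let v178 := add v176 v177; ok v178 && (
  let v179 := scale ⟨2813365518336, 0, 0, 0⟩ v25; ok v179 && (
  let v180 := add v178 v179; ok v180 && (
  let v181 := scale ⟨294585171968, 0, 0, 0⟩ v30; ok v181 && (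
  let v182 := add v180 v181; ok v182 && (
  let v183 := cst ⟨857366986752, 0, 0, 0⟩; ok v183 && (
  let v184 := add v182 v183; ok v184 && (
  let v185 := scale ⟨7421703487488, 0, 0, 0⟩ v2; ok v185 && (
  let v186 := neg v185; ok v186 && (
  let v187 := exp v186; ok v187 && (
  let v188 := mul v184 v187; ok v188 && (
  let v189 := mul v188 v173; ok v189 && (
  let v190 := scale ⟨879662989312, 0, 0, 0⟩ v173; ok v190 && (
  let v191 := add v190 v18; ok v191 && (
  isPos 3 v191 && (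
  let v192 := inv v191; ok v192 && (
  let v193 := mul v189 v192; ok v193 && (
  let v194 := neg v165; ok v194 && (
  let v195 := exp v194; ok v195 && (
  let v196 := add v195 v18; ok v196 && (
  isPos 3 v196 && (
  let v197 := log v196; ok v197 && (
  let v198 := mul v193 x3; ok v198 && (
  let v199 := sub v18 v198; ok v199 && (
  let v200 := log v199; ok v200 && (
  let v201 := mul v195 v198; ok v201 && (
  let v202 := add v201 v18; ok v202 && (
  isPos 3 v202 && (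
  let v203 := log v202; ok v203 && (
  let v204 := scale ⟨274877906944, 0, 0, 0⟩ v13; ok v204 && (
  let v205 := log v19; ok v205 && (
  let v206 := add x1 v205; ok v206 && (
  let v207 := sub v197 v203; ok v207 && (
  let v208 := sub v207 v206; ok v208 && (
  let v209 := mul v208 x0; ok v209 && (
  let v210 := exp v209; ok v210 && (
  let v211 := sub v203 v200; ok v211 && (
  let v212 := add v211 v165; ok v212 && (
  let v213 := mul v212 x0; ok v213 && (
  let v214 := exp v213; ok v214 && (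
  let v215 := mul x0 v169; ok v215 && (
  let v216 := scale ⟨1649267441664, 0, 0, 0⟩ v204; ok v216 && (
  let v217 := add v216 v18; ok v217 && (
  let v218 := mul v215 v217; ok v218 && (
  let v219 := mul x2 v218; ok v219 && (
  let v220 := scale ⟨0, 0, 1099511627776, 0⟩ v219; ok v220 && (
  let v221 := mul v220 v220; ok v221 && (
  let v222 := sub v204 v221; ok v222 && (
  let v223 := mul v210 v210; ok v223 && (
  let v224 := mul v223 v222; ok v224 && (
  let v225 := scale ⟨4398046511104, 0, 0, 0⟩ v224; ok v225 && (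
  let v226 := sub v18 v225; ok v226 && (
  let v227 := log v226; ok v227 && (
  let v228 := scale ⟨549755813888, 0, 0, 0⟩ v227; ok v228 && (
  let v229 := exp v228; ok v229 && (
  let v230 := mul v210 v220; ok v230 && (
  let v231 := mul v230 v229; ok v231 && (
  let v232 := mul v204 v214; ok v232 && (
  let v233 := scale ⟨2199023255552, 0, 0, 0⟩ v222; ok v233 && (
  let v234 := add v232 v233; ok v234 && (
  let v235 := mul v223 v234; ok v235 && (
  let v236 := add v235 v231; ok v236 && (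
  let v237 := mul v214 v236; ok v237 && (
  let v238 := scale ⟨4398046511104, 0, 0, 0⟩ v237; ok v238 && (
  let v239 := add v238 v18; ok v239 && (
  let v240 := log v239; ok v240 && (
  let v241 := scale ⟨549755813888, 0, 0, 0⟩ v240; ok v241 && (
  let v242 := exp v241; ok v242 && (
  let v243 := sub v242 v23; ok v243 && (
  let v244 := mul v14 v14; ok v244 && (
  let v245 := cst ⟨18047452577792, 0, 0, 0⟩; ok v245 && (
  let v246 := add v244 v245; ok v246 && (
  isPos 3 v246 && (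
  let v247 := inv v246; ok v247 && (
  let v248 := mul v243 v0; ok v248 && (
  let v249 := mul v248 v248; ok v249 && (
  let v250 := sub v249 v244; ok v250 && (
  let v251 := mul v250 v247; ok v251 && (
  isLt v251 1099510579200 && (
  let v252 := mul v210 v220; ok v252 && (
  let v253 := scale ⟨2199023255552, 0, 0, 0⟩ v252; ok v253 && (
  let v254 := sub v229 v253; ok v254 && (
  isPos 3 v254 && (
  let v255 := mul v220 v10; ok v255 && (
  let v256 := add v23 v255; ok v256 && (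
  let v257 := inv v256; ok v257 && (
  let v258 := sub v23 v257; ok v258 && (
  let v259 := sub v243 v258; ok v259 && (
  let v260 := scale ⟨0, 136592097280, 0, 0⟩ v27; ok v260 && (
  let v261 := scale ⟨0, 205400375296, 0, 0⟩ v28; ok v261 && (
  let v262 := add v260 v261; ok v262 && (
  let v263 := scale ⟨122139967488, 0, 0, 0⟩ v29; ok v263 && (
  let v264 := add v262 v263; ok v264 && (
  let v265 := scale ⟨1596310880256, 0, 0, 0⟩ v25; ok v265 && (
  let v266 := add v264 v265; ok v266 && (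
  let v267 := scale ⟨14380816334848, 0, 0, 0⟩ v30; ok v267 && (
  let v268 := add v266 v267; ok v268 && (
  let v269 := cst ⟨1866776313856, 0, 0, 0⟩; ok v269 && (
  let v270 := add v268 v269; ok v270 && (
  let v271 := add v255 v12; ok v271 && (
  let v272 := inv v271; ok v272 && (
  let v273 := mul v7 v256; ok v273 && (
  let v274 := mul v272 v273; ok v274 && (
  let v275 := mul v274 v259; ok v275 && (
  let v276 := inv v2; ok v276 && (
  let v277 := mul v12 v276; ok v277 && (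
  let v278 := scale ⟨2199023255552, 0, 0, 0⟩ v277; ok v278 && (
  let v279 := mul v278 v275; ok v279 && (
  let v280 := add v275 v18; ok v280 && (
  let v281 := inv v280; ok v281 && (
  let v282 := mul v274 v281; ok v282 && (
  let v283 := mul v282 v6; ok v283 && (
  let v284 := mul v283 v6; ok v284 && (
  let v285 := inv v270; ok v285 && (
  let v286 := mul v284 v285; ok v286 && (
  let v287 := mul v279 v286; ok v287 && (
  isLt v287 1099510579200 && (
  let v288 := add v23 v243; ok v288 && (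
  isPos 3 v288 && (
  let v289 := inv v288; ok v289 && (
  let v290 := mul v289 v289; ok v290 && (
  let v291 := sub v18 v290; ok v291 && (
  let v292 := mul v291 v0; ok v292 && (
  let v293 := sub v8 v290; ok v293 && (
  let v294 := mul v293 v0; ok v294 && (
  let v295 := scale ⟨0, 25340307046400, 0, 0⟩ v25; ok v295 && (
  let v296 := cst ⟨0, 3376918036480, 0, 0⟩; ok v296 && (
  let v297 := add v295 v296; ok v297 && (
  let v298 := sub v292 v297; ok v298 && (
  isPos 3 v298 && (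
  let v299 := inv v298; ok v299 && (
  let v300 := scale ⟨31362867265536, 0, 0, 0⟩ v299; ok v300 && (
  let v301 := add v298 v300; ok v301 && (
  isPos 3 v301 && (
  let v302 := inv v301; ok v302 && (
  let v303 := scale ⟨0, 644724109184, 0, 0⟩ v27; ok v303 && (
  let v304 := scale ⟨8243294473600, 0, 0, 0⟩ v25; ok v304 && (
  let v305 := add v303 v304; ok v305 && (
  let v306 := cst ⟨0, 26976642304, 0, 0⟩; ok v306 && (
  let v307 := add v305 v306; ok v307 && (
  let v308 := scale ⟨0, 1608312064512, 0, 0⟩ v27; ok v308 && (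
  let v309 := scale ⟨92190818541376, 0, 0, 0⟩ v25; ok v309 && (
  let v310 := add v308 v309; ok v310 && (
  let v311 := cst ⟨5178715130048, 0, 0, 0⟩; ok v311 && (
  let v312 := add v310 v311; ok v312 && (
  let v313 := mul v299 v312; ok v313 && (
  let v314 := add v307 v313; ok v314 && (
  let v315 := mul v314 v302; ok v315 && (
  let v316 := scale ⟨0, 2920512, 0, 0⟩ v292; ok v316 && (
  let v317 := cst ⟨93342144, 0, 0, 0⟩; ok v317 && (
  let v318 := add v316 v317; ok v318 && (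
  let v319 := mul v292 v318; ok v319 && (
  let v320 := add v319 v69; ok v320 && (
  let v321 := mul v292 v320; ok v321 && (
  let v322 := add v321 v64; ok v322 && (
  let v323 := mul v292 v322; ok v323 && (
  let v324 := add v315 v53; ok v324 && (
  let v325 := add v323 v324; ok v325 && (
  let v326 := mul v294 v325; ok v326 && (
  let v327 := neg v326; ok v327 && (
  let v328 := exp v327; ok v328 && (
  let v329 := sub v328 v18; ok v329 && (
  let v330 := add v329 v18; ok v330 && (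
  let v331 := mul v17 v330; ok v331 && (
  let v332 := add v331 v18; ok v332 && (
  isPos 3 v332 && (
  let v333 := mul v21 v329; ok v333 && (
  let v334 := add v333 v18; ok v334 && (
  isPos 3 v334 && (
  let v335 := log v334; ok v335 && (
  let v336 := add v243 v12; ok v336 && (
  let v337 := add v165 v197; ok v337 && (
  let v338 := sub v337 v205; ok v338 && (
  let v339 := sub v338 v335; ok v339 && (
  let v340 := scale ⟨549755813888, 0, 0, 0⟩ v0; ok v340 && (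
  let v341 := mul v240 v340; ok v341 && (
  let v342 := sub v339 v341; ok v342 && (
  let v343 := exp v342; ok v343 && (
  let v344 := scale ⟨0, 45051281408, 0, 0⟩ v74; ok v344 && (
  let v345 := cst ⟨116860518400, 0, 0, 0⟩; ok v345 && (
  let v346 := add v344 v345; ok v346 && (
  let v347 := mul v74 v346; ok v347 && (
  let v348 := cst ⟨0, 168733900800, 0, 0⟩; ok v348 && (
  let v349 := add v347 v348; ok v349 && (
  let v350 := mul v74 v349; ok v350 && (
  let v351 := scale ⟨0, 34817310720, 0, 0⟩ v27; ok v351 && (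
  let v352 := scale ⟨0, 990428332032, 0, 0⟩ v25; ok v352 && (
  let v353 := add v351 v352; ok v353 && (
  let v354 := cst ⟨161828569088, 0, 0, 0⟩; ok v354 && (
  let v355 := add v353 v354; ok v355 && (
  let v356 := add v350 v355; ok v356 && (
  let v357 := mul v74 v356; ok v357 && (
  let v358 := scale ⟨367984640, 0, 0, 0⟩ v27; ok v358 && (
  let v359 := scale ⟨4671764955136, 0, 0, 0⟩ v25; ok v359 && (
  let v360 := add v358 v359; ok v360 && (
  let v361 := cst ⟨228564008960, 0, 0, 0⟩; ok v361 && (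
  let v362 := add v360 v361; ok v362 && (
  let v363 := add v357 v362; ok v363 && (
  let v364 := mul v74 v363; ok v364 && (
  let v365 := scale ⟨97559642112, 0, 0, 0⟩ v27; ok v365 && (
  let v366 := scale ⟨20337000448, 0, 0, 0⟩ v28; ok v366 && (
  let v367 := add v365 v366; ok v367 && (
  let v368 := scale ⟨1534337613824, 0, 0, 0⟩ v25; ok v368 && (
  let v369 := add v367 v368; ok v369 && (
  let v370 := scale ⟨2567040925696, 0, 0, 0⟩ v30; ok v370 && (
  let v371 := add v369 v370; ok v371 && (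
  let v372 := scale ⟨14305624195072, 0, 0, 0⟩ v32; ok v372 && (
  let v373 := add v371 v372; ok v373 && (
  let v374 := cst ⟨1138765135872, 0, 0, 0⟩; ok v374 && (
  let v375 := add v373 v374; ok v375 && (
  let v376 := add v364 v375; ok v376 && (
  let v377 := inv v189; ok v377 && (
  let v378 := mul v377 v191; ok v378 && (
  let v379 := scale ⟨294518784, 0, 0, 0⟩ v27; ok v379 && (
  let v380 := scale ⟨524288, 0, 0, 0⟩ v28; ok v380 && (
  let v381 := add v379 v380; ok v381 && (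
  let v382 := scale ⟨0, 196608, 0, 0⟩ v29; ok v382 && (
  let v383 := add v381 v382; ok v383 && (
  let v384 := scale ⟨6180110336, 0, 0, 0⟩ v25; ok v384 && (
  let v385 := add v383 v384; ok v385 && (
  let v386 := scale ⟨4442816512, 0, 0, 0⟩ v30; ok v386 && (
  let v387 := add v385 v386; ok v387 && (
  let v388 := cst ⟨88371822592, 0, 0, 0⟩; ok v388 && (
  let v389 := add v387 v388; ok v389 && (
  let v390 := scale ⟨1786706395136, 0, 0, 0⟩ v2; ok v390 && (
  let v391 := neg v390; ok v391 && (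
  let v392 := exp v391; ok v392 && (
  let v393 := mul v389 v392; ok v393 && (
  let v394 := scale ⟨2199023255552, 0, 0, 0⟩ v393; ok v394 && (
  let v395 := mul v394 v336; ok v395 && (
  let v396 := scale ⟨879662989312, 0, 0, 0⟩ v243; ok v396 && (
  let v397 := add v396 x0; ok v397 && (
  let v398 := inv v397; ok v398 && (
  let v399 := mul v395 v398; ok v399 && (
  let v400 := cst ⟨0, 0, 0, 0⟩; ok v400 && (
  let v401 := mul v376 v343; ok v401 && (
  let v402 := mul v401 v331; ok v402 && (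
  let v403 := mul v402 v399; ok v403 && (
  let v404 := mul v403 v378; ok v404 && (
  let v405 := rball v400 v404; ok v405 && (
  let v406 := sub v18 v376; ok v406 && (
  let v407 := mul x3 v406; ok v407 && (
  let v408 := sub v18 v343; ok v408 && (
  let v409 := mul v408 v378; ok v409 && (
  let v410 := mul v376 v409; ok v410 && (
  let v411 := add v407 v410; ok v411 && (
  let v412 := add v411 v405; ok v412 && (
  isLt v412 1099510579200 && (
  true))))))))))))))))))))))))))))))))))))))))))))))))))))))))))))))))))))))))))))))))))))))))))))))))))))))))))))))))))))))))))))))))))))))))))))))))))))))))))))))))))))))))))))))))))))))))))))))))))))))))))))))))))))))))))))))))))))))))))))))))))))))))))))))))))))))))))))))))))))))))))))))))))))))))))))))))))))))))))))))))))))))))))))))))))))))))))))))))))))))))))))))))))))))))))))))))))))))))))))))))))))))))))))))))))))))))))))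
  | _ => false

set_option maxRecDepth 1000000 in
theorem c_Z_0_eq (X : XOps) (m : List X.O.α)
    (h : c_Z_0 X.O.cst X.O.add X.O.sub X.O.mul X.O.scale X.O.neg X.O.inv X.O.exp X.O.log X.O.ok
      X.O.isPos X.O.isLt X.ball X.rball m = true) :
    runX X 3 p_Z_0 m = true := by
  match m, h with
  | [x0, x1, x2, x3], h => exact h

abbrev gZ : List (List Op) := [p_Z_0]

noncomputable abbrev kZ : List (List xE.O.α → Bool) := [c_Z_0 xE.O.cst xE.O.add xE.O.sub xE.O.mul xE.O.scale xE.O.neg xE.O.inv xE.O.exp xE.O.log xE.O.ok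
      xE.O.isPos xE.O.isLt xE.ball xE.rball]

theorem kZ_eq : List.Forall₂ (fun (ops : List Op) (chk : List xE.O.α → Bool) =>
    ∀ m, chk m = true → runX xE 3 ops m = true) gZ kZ :=
  List.Forall₂.cons (c_Z_0_eq xE) List.Forall₂.nil

theorem gZ_eq : gZ = [comp (P0 tab) ρ4 4] := by decide +kernel

def p_T_0 : List Op := [
  .pos 0,
  .inv 0,
  .mul 1 2,
  .scale ⟨2199023255552, 0, 0, 0⟩ 0,
  .exp 1,
  .neg 2,
  .exp 0,
  .mul 2 2,
  .mul 1 1,
  .mul 0 0,
  .sub 5 3,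
  .add 6 4,
  .mul 1 0,
  .scale ⟨549755813888, 0, 0, 0⟩ 0,
  .mul 3 3,
  .mul 1 13,
  .scale ⟨2199023255552, 0, 0, 0⟩ 16,
  .neg 0,
  .exp 0,
  .const ⟨1099511627776, 0, 0, 0⟩,
  .add 1 0,
  .pos 0,
  .inv 0,
  .mul 3 0,
  .add 15 14,
  .scale ⟨549755813888, 0, 0, 0⟩ 0,
  .const ⟨73282879488, 0, 0, 0⟩,
  .sub 25 0,
  .const ⟨1537598291968, 0, 0, 0⟩,
  .sub 28 0,
  .mul 0 0,
  .mul 0 1,
  .mul 4 2,
  .mul 5 2,
  .mul 6 6,
  .mul 0 5,
  .mul 1 8,
  .scale ⟨0, 0, 1099511627776, 0⟩ 16,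
  .scale ⟨549755813888, 0, 0, 0⟩ 0,
  .add 0 18,
  .inv 0,
  .mul 3 0,
  .scale ⟨217772954240, 0, 0, 0⟩ 0,
  .const ⟨0, 26778413056, 0, 0⟩,
  .add 1 0,
  .mul 3 0,
  .const ⟨0, 112009813312, 0, 0⟩,
  .add 1 0,
  .mul 6 0,
  .const ⟨642012230720, 0, 0, 0⟩,
  .add 1 0,
  .mul 9 0,
  .scale ⟨0, 304631191296, 0, 0⟩ 22,
  .scale ⟨0, 129481895808, 0, 0⟩ 25,
  .add 1 0,
  .const ⟨0, 525760305088, 0, 0⟩,
  .add 1 0,
  .add 5 0,
  .mul 16 0,
  .scale ⟨972564255552, 0, 0, 0⟩ 29,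
  .scale ⟨2703271077376, 0, 0, 0⟩ 32,
  .add 1 0,
  .const ⟨134295812288, 0, 0, 0⟩,
  .add 1 0,
  .add 5 0,
  .mul 23 0,
  .scale ⟨0, 1586979548864, 0, 0⟩ 36,
  .scale ⟨0, 17747420195392, 0, 0⟩ 39,
  .add 1 0,
  .const ⟨378817531776, 0, 0, 0⟩,
  .add 1 0,
  .add 5 0,
  .mul 30 0,
  .scale ⟨1482381693184, 0, 0, 0⟩ 43,
  .scale ⟨0, 246956173056, 0, 0⟩ 43,
  .add 1 0,
  .scale ⟨8427066836800, 0, 0, 0⟩ 48,
  .add 1 0,
  .scale ⟨0, 6967740992576, 0, 0⟩ 45,
  .add 1 0,
  .scale ⟨0, 64379744240896, 0, 0⟩ 45,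
  .add 1 0,
  .const ⟨79007768000, 0, 0, 0⟩,
  .add 1 0,
  .add 11 0,
  .mul 43 0,
  .scale ⟨0, 816542781120, 0, 0⟩ 56,
  .scale ⟨318013445888, 0, 0, 0⟩ 56,
  .add 1 0,
  .scale ⟨0, 20094453066176, 0, 0⟩ 61,
  .add 1 0,
  .scale ⟨9082346836224, 0, 0, 0⟩ 58,
  .add 1 0,
  .scale ⟨49619403227456, 0, 0, 0⟩ 58,
  .add 1 0,
  .const ⟨575923226432, 0, 0, 0⟩,
  .add 1 0,
  .add 11 0,
  .mul 56 0,
  .scale ⟨104456074112, 0, 0, 0⟩ 69,
  .scale ⟨0, 277634378624, 0, 0⟩ 69,
  .add 1 0,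
  .scale ⟨465434602048, 0, 0, 0⟩ 74,
  .add 1 0,
  .scale ⟨0, 8993279142080, 0, 0⟩ 71,
  .add 1 0,
  .scale ⟨0, 38995738986752, 0, 0⟩ 71,
  .add 1 0,
  .const ⟨3694436288256, 0, 0, 0⟩,
  .add 1 0,
  .add 11 0,
  .mul 69 0,
  .scale ⟨333289663296, 0, 0, 0⟩ 82,
  .scale ⟨16329033920, 0, 0, 0⟩ 82,
  .add 1 0,
  .scale ⟨0, 26344617472, 0, 0⟩ 83,
  .add 1 0,
  .scale ⟨6463448512576, 0, 0, 0⟩ 89,
  .add 1 0,
  .scale ⟨4668743743552, 0, 0, 0⟩ 86,
  .add 1 0,
  .scale ⟨0, 1258512691136, 0, 0⟩ 87,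
  .add 1 0,
  .scale ⟨0, 10024621052992, 0, 0⟩ 88,
  .add 1 0,
  .scale ⟨0, 16404252519936, 0, 0⟩ 89,
  .add 1 0,
  .scale ⟨104589456706688, 0, 0, 0⟩ 90,
  .add 1 0,
  .const ⟨424610093504, 0, 0, 0⟩,
  .add 1 0,
  .mul 0 130,
  .add 20 0,
  .mul 131 131,
  .scale ⟨5703716569088, 0, 0, 0⟩ 0,
  .const ⟨1726576852992, 0, 0, 0⟩,
  .add 1 0,
  .scale ⟨4398046511104, 0, 0, 0⟩ 136,
  .mul 96 1,
  .scale ⟨4398046511104, 0, 0, 0⟩ 0,
  .add 2 0,
  .scale ⟨0, 296918253568, 0, 0⟩ 111,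
  .scale ⟨0, 729124765696, 0, 0⟩ 111,
  .add 1 0,
  .scale ⟨1471889080320, 0, 0, 0⟩ 112,
  .add 1 0,
  .scale ⟨2813365518336, 0, 0, 0⟩ 118,
  .add 1 0,
  .scale ⟨294585171968, 0, 0, 0⟩ 115,
  .add 1 0,
  .const ⟨857366986752, 0, 0, 0⟩,
  .add 1 0,
  .scale ⟨7421703487488, 0, 0, 0⟩ 147,
  .neg 0,
  .exp 0,
  .mul 3 0,
  .mul 0 15,
  .scale ⟨879662989312, 0, 0, 0⟩ 16,
  .add 0 137,
  .pos 0,
  .inv 0,
  .mul 3 0,
  .neg 28,
  .exp 0,
  .add 0 142,
  .pos 0,
  .log 0,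
  .mul 4 165,
  .sub 145 0,
  .log 0,
  .mul 5 2,
  .add 0 148,
  .pos 0,
  .log 0,
  .scale ⟨274877906944, 0, 0, 0⟩ 155,
  .log 150,
  .add 172 0,
  .sub 9 3,
  .sub 0 1,
  .mul 0 174,
  .exp 0,
  .sub 7 10,
  .add 0 46,
  .mul 0 178,
  .exp 0,
  .mul 180 45,
  .scale ⟨1649267441664, 0, 0, 0⟩ 11,
  .add 0 163,
  .mul 2 0,
  .mul 165 0,
  .scale ⟨0, 0, 1099511627776, 0⟩ 0,
  .mul 0 0,
  .sub 17 0,
  .mul 12 12,
  .mul 0 1,
  .scale ⟨4398046511104, 0, 0, 0⟩ 0,
  .sub 172 0,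
  .log 0,
  .scale ⟨549755813888, 0, 0, 0⟩ 0,
  .exp 0,
  .mul 19 9,
  .mul 0 1,
  .scale ⟨4398046511104, 0, 0, 0⟩ 8,
  .scale ⟨2199023255552, 0, 0, 0⟩ 11,
  .sub 0 29,
  .mul 2 0,
  .add 0 182,
  .scale ⟨4398046511104, 0, 0, 0⟩ 5,
  .sub 1 0,
  .log 0,
  .const ⟨549755813888, 0, 0, 0⟩,
  .sub 37 43,
  .scale ⟨549755813888, 0, 0, 0⟩ 206,
  .mul 3 0,
  .add 2 0,
  .exp 0,
  .sub 5 0,
  .pos 0]

set_option maxRecDepth 1000000 in
noncomputable def c_T_0 {α : Type} (cst : Z → α) (add sub mul : α → α → α) (scale : Z → α → α)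
    (neg inv exp log : α → α) (ok : α → Bool) (isPos : Nat → α → Bool) (isLt : α → Nat → Bool)
    (ball : Nat → α → α) (rball : α → α → α) : List α → Bool
  | [x0, x1, x2] =>
  isPos 2 x0 && (
  let v0 := inv x0; ok v0 && (
  let v1 := mul x0 x1; ok v1 && (
  let v2 := scale ⟨2199023255552, 0, 0, 0⟩ v1; ok v2 && (
  let v3 := exp v1; ok v3 && (
  let v4 := neg v1; ok v4 && (
  let v5 := exp v4; ok v5 && (
  let v6 := mul v3 v3; ok v6 && (
  let v7 := mul v5 v5; ok v7 && (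
  let v8 := mul v7 v7; ok v8 && (
  let v9 := sub v3 v5; ok v9 && (
  let v10 := add v3 v5; ok v10 && (
  let v11 := mul v9 v10; ok v11 && (
  let v12 := scale ⟨549755813888, 0, 0, 0⟩ v11; ok v12 && (
  let v13 := mul v9 v9; ok v13 && (
  let v14 := mul v12 v0; ok v14 && (
  let v15 := scale ⟨2199023255552, 0, 0, 0⟩ x1; ok v15 && (
  let v16 := neg v15; ok v16 && (
  let v17 := exp v16; ok v17 && (
  let v18 := cst ⟨1099511627776, 0, 0, 0⟩; ok v18 && (
  let v19 := add v17 v18; ok v19 && (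
  isPos 2 v19 && (
  let v20 := inv v19; ok v20 && (
  let v21 := mul v17 v20; ok v21 && (
  let v22 := add v6 v7; ok v22 && (
  let v23 := scale ⟨549755813888, 0, 0, 0⟩ v22; ok v23 && (
  let v24 := cst ⟨73282879488, 0, 0, 0⟩; ok v24 && (
  let v25 := sub x0 v24; ok v25 && (
  let v26 := cst ⟨1537598291968, 0, 0, 0⟩; ok v26 && (
  let v27 := sub x1 v26; ok v27 && (
  let v28 := mul v27 v27; ok v28 && (
  let v29 := mul v28 v27; ok v29 && (
  let v30 := mul v25 v27; ok v30 && (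
  let v31 := mul v25 v28; ok v31 && (
  let v32 := mul v25 v25; ok v32 && (
  let v33 := mul v32 v27; ok v33 && (
  let v34 := mul v32 v25; ok v34 && (
  let v35 := scale ⟨0, 0, 1099511627776, 0⟩ v18; ok v35 && (
  let v36 := scale ⟨549755813888, 0, 0, 0⟩ v35; ok v36 && (
  let v37 := add v36 v18; ok v37 && (
  let v38 := inv v37; ok v38 && (
  let v39 := mul v35 v38; ok v39 && (
  let v40 := scale ⟨217772954240, 0, 0, 0⟩ v39; ok v40 && (
  let v41 := cst ⟨0, 26778413056, 0, 0⟩; ok v41 && (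
  let v42 := add v40 v41; ok v42 && (
  let v43 := mul v39 v42; ok v43 && (
  let v44 := cst ⟨0, 112009813312, 0, 0⟩; ok v44 && (
  let v45 := add v43 v44; ok v45 && (
  let v46 := mul v39 v45; ok v46 && (
  let v47 := cst ⟨642012230720, 0, 0, 0⟩; ok v47 && (
  let v48 := add v46 v47; ok v48 && (
  let v49 := mul v39 v48; ok v49 && (
  let v50 := scale ⟨0, 304631191296, 0, 0⟩ v27; ok v50 && (
  let v51 := scale ⟨0, 129481895808, 0, 0⟩ v25; ok v51 && (
  let v52 := add v50 v51; ok v52 && (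
  let v53 := cst ⟨0, 525760305088, 0, 0⟩; ok v53 && (
  let v54 := add v52 v53; ok v54 && (
  let v55 := add v49 v54; ok v55 && (
  let v56 := mul v39 v55; ok v56 && (
  let v57 := scale ⟨972564255552, 0, 0, 0⟩ v27; ok v57 && (
  let v58 := scale ⟨2703271077376, 0, 0, 0⟩ v25; ok v58 && (
  let v59 := add v57 v58; ok v59 && (
  let v60 := cst ⟨134295812288, 0, 0, 0⟩; ok v60 && (
  let v61 := add v59 v60; ok v61 && (
  let v62 := add v56 v61; ok v62 && (
  let v63 := mul v39 v62; ok v63 && (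
  let v64 := scale ⟨0, 1586979548864, 0, 0⟩ v27; ok v64 && (
  let v65 := scale ⟨0, 17747420195392, 0, 0⟩ v25; ok v65 && (
  let v66 := add v64 v65; ok v66 && (
  let v67 := cst ⟨378817531776, 0, 0, 0⟩; ok v67 && (
  let v68 := add v66 v67; ok v68 && (
  let v69 := add v63 v68; ok v69 && (
  let v70 := mul v39 v69; ok v70 && (
  let v71 := scale ⟨1482381693184, 0, 0, 0⟩ v27; ok v71 && (
  let v72 := scale ⟨0, 246956173056, 0, 0⟩ v28; ok v72 && (
  let v73 := add v71 v72; ok v73 && (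
  let v74 := scale ⟨8427066836800, 0, 0, 0⟩ v25; ok v74 && (
  let v75 := add v73 v74; ok v75 && (
  let v76 := scale ⟨0, 6967740992576, 0, 0⟩ v30; ok v76 && (
  let v77 := add v75 v76; ok v77 && (
  let v78 := scale ⟨0, 64379744240896, 0, 0⟩ v32; ok v78 && (
  let v79 := add v77 v78; ok v79 && (
  let v80 := cst ⟨79007768000, 0, 0, 0⟩; ok v80 && (
  let v81 := add v79 v80; ok v81 && (
  let v82 := add v70 v81; ok v82 && (
  let v83 := mul v39 v82; ok v83 && (
  let v84 := scale ⟨0, 816542781120, 0, 0⟩ v27; ok v84 && (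
  let v85 := scale ⟨318013445888, 0, 0, 0⟩ v28; ok v85 && (
  let v86 := add v84 v85; ok v86 && (
  let v87 := scale ⟨0, 20094453066176, 0, 0⟩ v25; ok v87 && (
  let v88 := add v86 v87; ok v88 && (
  let v89 := scale ⟨9082346836224, 0, 0, 0⟩ v30; ok v89 && (
  let v90 := add v88 v89; ok v90 && (
  let v91 := scale ⟨49619403227456, 0, 0, 0⟩ v32; ok v91 && (
  let v92 := add v90 v91; ok v92 && (
  let v93 := cst ⟨575923226432, 0, 0, 0⟩; ok v93 && (
  let v94 := add v92 v93; ok v94 && (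
  let v95 := add v83 v94; ok v95 && (
  let v96 := mul v39 v95; ok v96 && (
  let v97 := scale ⟨104456074112, 0, 0, 0⟩ v27; ok v97 && (
  let v98 := scale ⟨0, 277634378624, 0, 0⟩ v28; ok v98 && (
  let v99 := add v97 v98; ok v99 && (
  let v100 := scale ⟨465434602048, 0, 0, 0⟩ v25; ok v100 && (
  let v101 := add v99 v100; ok v101 && (
  let v102 := scale ⟨0, 8993279142080, 0, 0⟩ v30; ok v102 && (
  let v103 := add v101 v102; ok v103 && (
  let v104 := scale ⟨0, 38995738986752, 0, 0⟩ v32; ok v104 && (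
  let v105 := add v103 v104; ok v105 && (
  let v106 := cst ⟨3694436288256, 0, 0, 0⟩; ok v106 && (
  let v107 := add v105 v106; ok v107 && (
  let v108 := add v96 v107; ok v108 && (
  let v109 := mul v39 v108; ok v109 && (
  let v110 := scale ⟨333289663296, 0, 0, 0⟩ v27; ok v110 && (
  let v111 := scale ⟨16329033920, 0, 0, 0⟩ v28; ok v111 && (
  let v112 := add v110 v111; ok v112 && (
  let v113 := scale ⟨0, 26344617472, 0, 0⟩ v29; ok v113 && (
  let v114 := add v112 v113; ok v114 && (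
  let v115 := scale ⟨6463448512576, 0, 0, 0⟩ v25; ok v115 && (
  let v116 := add v114 v115; ok v116 && (
  let v117 := scale ⟨4668743743552, 0, 0, 0⟩ v30; ok v117 && (
  let v118 := add v116 v117; ok v118 && (
  let v119 := scale ⟨0, 1258512691136, 0, 0⟩ v31; ok v119 && (
  let v120 := add v118 v119; ok v120 && (
  let v121 := scale ⟨0, 10024621052992, 0, 0⟩ v32; ok v121 && (
  let v122 := add v120 v121; ok v122 && (
  let v123 := scale ⟨0, 16404252519936, 0, 0⟩ v33; ok v123 && (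
  let v124 := add v122 v123; ok v124 && (
  let v125 := scale ⟨104589456706688, 0, 0, 0⟩ v34; ok v125 && (
  let v126 := add v124 v125; ok v126 && (
  let v127 := cst ⟨424610093504, 0, 0, 0⟩; ok v127 && (
  let v128 := add v126 v127; ok v128 && (
  let v129 := mul v128 x1; ok v129 && (
  let v130 := add v109 v129; ok v130 && (
  let v131 := mul x0 x0; ok v131 && (
  let v132 := scale ⟨5703716569088, 0, 0, 0⟩ v131; ok v132 && (
  let v133 := cst ⟨1726576852992, 0, 0, 0⟩; ok v133 && (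
  let v134 := add v132 v133; ok v134 && (
  let v135 := scale ⟨4398046511104, 0, 0, 0⟩ x1; ok v135 && (
  let v136 := mul v39 v134; ok v136 && (
  let v137 := scale ⟨4398046511104, 0, 0, 0⟩ v136; ok v137 && (
  let v138 := add v135 v137; ok v138 && (
  let v139 := scale ⟨0, 296918253568, 0, 0⟩ v27; ok v139 && (
  let v140 := scale ⟨0, 729124765696, 0, 0⟩ v28; ok v140 && (
  let v141 := add v139 v140; ok v141 && (
  let v142 := scale ⟨1471889080320, 0, 0, 0⟩ v29; ok v142 && (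
  let v143 := add v141 v142; ok v143 && (
  let v144 := scale ⟨2813365518336, 0, 0, 0⟩ v25; ok v144 && (
  let v145 := add v143 v144; ok v145 && (
  let v146 := scale ⟨294585171968, 0, 0, 0⟩ v30; ok v146 && (
  let v147 := add v145 v146; ok v147 && (
  let v148 := cst ⟨857366986752, 0, 0, 0⟩; ok v148 && (
  let v149 := add v147 v148; ok v149 && (
  let v150 := scale ⟨7421703487488, 0, 0, 0⟩ v2; ok v150 && (
  let v151 := neg v150; ok v151 && (
  let v152 := exp v151; ok v152 && (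
  let v153 := mul v149 v152; ok v153 && (
  let v154 := mul v153 v138; ok v154 && (
  let v155 := scale ⟨879662989312, 0, 0, 0⟩ v138; ok v155 && (
  let v156 := add v155 v18; ok v156 && (
  isPos 2 v156 && (
  let v157 := inv v156; ok v157 && (
  let v158 := mul v154 v157; ok v158 && (
  let v159 := neg v130; ok v159 && (
  let v160 := exp v159; ok v160 && (
  let v161 := add v160 v18; ok v161 && (
  isPos 2 v161 && (
  let v162 := log v161; ok v162 && (
  let v163 := mul v158 x2; ok v163 && (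
  let v164 := sub v18 v163; ok v164 && (
  let v165 := log v164; ok v165 && (
  let v166 := mul v160 v163; ok v166 && (
  let v167 := add v166 v18; ok v167 && (
  isPos 2 v167 && (
  let v168 := log v167; ok v168 && (
  let v169 := scale ⟨274877906944, 0, 0, 0⟩ v13; ok v169 && (
  let v170 := log v19; ok v170 && (
  let v171 := add x1 v170; ok v171 && (
  let v172 := sub v162 v168; ok v172 && (
  let v173 := sub v172 v171; ok v173 && (
  let v174 := mul v173 x0; ok v174 && (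
  let v175 := exp v174; ok v175 && (
  let v176 := sub v168 v165; ok v176 && (
  let v177 := add v176 v130; ok v177 && (
  let v178 := mul v177 x0; ok v178 && (
  let v179 := exp v178; ok v179 && (
  let v180 := mul x0 v134; ok v180 && (
  let v181 := scale ⟨1649267441664, 0, 0, 0⟩ v169; ok v181 && (
  let v182 := add v181 v18; ok v182 && (
  let v183 := mul v180 v182; ok v183 && (
  let v184 := mul v18 v183; ok v184 && (
  let v185 := scale ⟨0, 0, 1099511627776, 0⟩ v184; ok v185 && (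
  let v186 := mul v185 v185; ok v186 && (
  let v187 := sub v169 v186; ok v187 && (
  let v188 := mul v175 v175; ok v188 && (
  let v189 := mul v188 v187; ok v189 && (
  let v190 := scale ⟨4398046511104, 0, 0, 0⟩ v189; ok v190 && (
  let v191 := sub v18 v190; ok v191 && (
  let v192 := log v191; ok v192 && (
  let v193 := scale ⟨549755813888, 0, 0, 0⟩ v192; ok v193 && (
  let v194 := exp v193; ok v194 && (
  let v195 := mul v175 v185; ok v195 && (
  let v196 := mul v195 v194; ok v196 && (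
  let v197 := scale ⟨4398046511104, 0, 0, 0⟩ v188; ok v197 && (
  let v198 := scale ⟨2199023255552, 0, 0, 0⟩ v186; ok v198 && (
  let v199 := sub v198 v169; ok v199 && (
  let v200 := mul v197 v199; ok v200 && (
  let v201 := add v200 v18; ok v201 && (
  let v202 := scale ⟨4398046511104, 0, 0, 0⟩ v196; ok v202 && (
  let v203 := sub v201 v202; ok v203 && (
  let v204 := log v203; ok v204 && (
  let v205 := cst ⟨549755813888, 0, 0, 0⟩; ok v205 && (
  let v206 := sub v168 v162; ok v206 && (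
  let v207 := scale ⟨549755813888, 0, 0, 0⟩ v0; ok v207 && (
  let v208 := mul v204 v207; ok v208 && (
  let v209 := add v206 v208; ok v209 && (
  let v210 := exp v209; ok v210 && (
  let v211 := sub v205 v210; ok v211 && (
  isPos 2 v211 && (
  true))))))))))))))))))))))))))))))))))))))))))))))))))))))))))))))))))))))))))))))))))))))))))))))))))))))))))))))))))))))))))))))))))))))))))))))))))))))))))))))))))))))))))))))))))))))))))))))))))))))))))))))))))))))))))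
  | _ => false

set_option maxRecDepth 1000000 in
theorem c_T_0_eq (X : XOps) (m : List X.O.α)
    (h : c_T_0 X.O.cst X.O.add X.O.sub X.O.mul X.O.scale X.O.neg X.O.inv X.O.exp X.O.log X.O.ok
      X.O.isPos X.O.isLt X.ball X.rball m = true) :
    runX X 2 p_T_0 m = true := by
  match m, h with
  | [x0, x1, x2], h => exact h

abbrev gT : List (List Op) := [p_T_0]

noncomputable abbrev kT : List (List xE.O.α → Bool) := [c_T_0 xE.O.cst xE.O.add xE.O.sub xE.O.mul xE.O.scale xE.O.neg xE.O.inv xE.O.exp xE.O.log xE.O.ok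
      xE.O.isPos xE.O.isLt xE.ball xE.rball]

theorem kT_eq : List.Forall₂ (fun (ops : List Op) (chk : List xE.O.α → Bool) =>
    ∀ m, chk m = true → runX xE 2 ops m = true) gT kT :=
  List.Forall₂.cons (c_T_0_eq xE) List.Forall₂.nil

theorem gT_eq : gT = [comp (PT tab) ρ3 3] := by decide +kernel

def p_S_0 : List Op := [
  .mul 0 1,
  .scale ⟨2199023255552, 0, 0, 0⟩ 0,
  .exp 1,
  .neg 2,
  .exp 0,
  .mul 0 0,
  .sub 3 1,
  .add 4 2,
  .mul 1 0,
  .scale ⟨549755813888, 0, 0, 0⟩ 0,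
  .inv 10,
  .mul 1 0,
  .const ⟨1099511627776, 0, 0, 0⟩,
  .const ⟨73282879488, 0, 0, 0⟩,
  .sub 14 0,
  .const ⟨1537598291968, 0, 0, 0⟩,
  .sub 17 0,
  .mul 0 0,
  .mul 0 1,
  .mul 4 2,
  .scale ⟨0, 136592097280, 0, 0⟩ 3,
  .scale ⟨0, 205400375296, 0, 0⟩ 3,
  .add 1 0,
  .scale ⟨122139967488, 0, 0, 0⟩ 4,
  .add 1 0,
  .scale ⟨1596310880256, 0, 0, 0⟩ 10,
  .add 1 0,
  .scale ⟨14380816334848, 0, 0, 0⟩ 7,
  .add 1 0,
  .const ⟨1866776313856, 0, 0, 0⟩,
  .add 1 0,
  .pos 0,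
  .mul 19 19,
  .const ⟨18047452577792, 0, 0, 0⟩,
  .add 1 0,
  .pos 0,
  .const ⟨73282879488, 0, 0, 0⟩,
  .sub 35 0,
  .const ⟨1537598291968, 0, 0, 0⟩,
  .sub 38 0,
  .mul 0 0,
  .mul 0 1,
  .mul 4 2,
  .scale ⟨0, 136592097280, 0, 0⟩ 3,
  .scale ⟨0, 205400375296, 0, 0⟩ 3,
  .add 1 0,
  .scale ⟨122139967488, 0, 0, 0⟩ 4,
  .add 1 0,
  .scale ⟨1596310880256, 0, 0, 0⟩ 10,
  .add 1 0,
  .scale ⟨14380816334848, 0, 0, 0⟩ 7,
  .add 1 0,
  .const ⟨1866776313856, 0, 0, 0⟩,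
  .add 1 0,
  .scale ⟨2199023255552, 0, 0, 0⟩ 50,
  .neg 0,
  .exp 0,
  .mul 53 3,
  .add 0 43,
  .mul 2 0,
  .sub 45 0,
  .inv 49,
  .mul 1 0,
  .pos 0,
  .scale ⟨411087405056, 0, 0, 0⟩ 23,
  .scale ⟨0, 243081019392, 0, 0⟩ 23,
  .add 1 0,
  .scale ⟨0, 240365010944, 0, 0⟩ 24,
  .add 1 0,
  .scale ⟨10190918909952, 0, 0, 0⟩ 30,
  .add 1 0,
  .scale ⟨5733937840128, 0, 0, 0⟩ 27,
  .add 1 0,
  .const ⟨1051811577856, 0, 0, 0⟩,
  .add 1 0,
  .pos 0,
  .mul 60 60,
  .const ⟨24395414241280, 0, 0, 0⟩,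
  .add 1 0,
  .pos 0,
  .const ⟨73282879488, 0, 0, 0⟩,
  .sub 76 0,
  .const ⟨1537598291968, 0, 0, 0⟩,
  .sub 79 0,
  .mul 0 0,
  .mul 0 1,
  .mul 4 2,
  .scale ⟨274495307776, 0, 0, 0⟩ 3,
  .scale ⟨0, 448481394688, 0, 0⟩ 3,
  .add 1 0,
  .scale ⟨0, 118225043456, 0, 0⟩ 4,
  .add 1 0,
  .scale ⟨11787229790208, 0, 0, 0⟩ 10,
  .add 1 0,
  .scale ⟨20114754174976, 0, 0, 0⟩ 7,
  .add 1 0,
  .const ⟨2918587891712, 0, 0, 0⟩,
  .add 1 0,
  .scale ⟨4398046511104, 0, 0, 0⟩ 91,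
  .neg 0,
  .exp 0,
  .mul 94 3,
  .add 0 84,
  .mul 2 0,
  .sub 86 0,
  .inv 90,
  .mul 1 0,
  .pos 0,
  .scale ⟨402633261056, 0, 0, 0⟩ 23,
  .scale ⟨0, 355181461504, 0, 0⟩ 23,
  .add 1 0,
  .scale ⟨0, 450657648640, 0, 0⟩ 24,
  .add 1 0,
  .scale ⟨9765319868416, 0, 0, 0⟩ 30,
  .add 1 0,
  .scale ⟨4420997152768, 0, 0, 0⟩ 27,
  .add 1 0,
  .const ⟨1060637966336, 0, 0, 0⟩,
  .add 1 0,
  .pos 0,
  .mul 101 101,
  .const ⟨27810986983424, 0, 0, 0⟩,
  .add 1 0,
  .pos 0,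
  .const ⟨73282879488, 0, 0, 0⟩,
  .sub 117 0,
  .const ⟨1537598291968, 0, 0, 0⟩,
  .sub 120 0,
  .mul 0 0,
  .mul 0 1,
  .mul 4 2,
  .scale ⟨677128568832, 0, 0, 0⟩ 3,
  .scale ⟨0, 803662856192, 0, 0⟩ 3,
  .add 1 0,
  .scale ⟨0, 568882692096, 0, 0⟩ 4,
  .add 1 0,
  .scale ⟨21552549658624, 0, 0, 0⟩ 10,
  .add 1 0,
  .scale ⟨24535751327744, 0, 0, 0⟩ 7,
  .add 1 0,
  .const ⟨3979225858048, 0, 0, 0⟩,
  .add 1 0,
  .scale ⟨6597069766656, 0, 0, 0⟩ 132,
  .neg 0,
  .exp 0,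
  .mul 135 3,
  .add 0 125,
  .mul 2 0,
  .sub 127 0,
  .inv 131,
  .mul 1 0,
  .pos 0,
  .scale ⟨326058770432, 0, 0, 0⟩ 23,
  .scale ⟨0, 411471708160, 0, 0⟩ 23,
  .add 1 0,
  .scale ⟨0, 436658176000, 0, 0⟩ 24,
  .add 1 0,
  .scale ⟨8509180870656, 0, 0, 0⟩ 30,
  .add 1 0,
  .scale ⟨2330053181440, 0, 0, 0⟩ 27,
  .add 1 0,
  .const ⟨1020088942592, 0, 0, 0⟩,
  .add 1 0,
  .pos 0,
  .mul 142 142,
  .const ⟨27288074715136, 0, 0, 0⟩,
  .add 1 0,
  .pos 0,
  .const ⟨73282879488, 0, 0, 0⟩,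
  .sub 158 0,
  .const ⟨1537598291968, 0, 0, 0⟩,
  .sub 161 0,
  .mul 0 0,
  .mul 0 1,
  .mul 4 2,
  .scale ⟨1003187339264, 0, 0, 0⟩ 3,
  .scale ⟨0, 1215134564352, 0, 0⟩ 3,
  .add 1 0,
  .scale ⟨0, 1005540868096, 0, 0⟩ 4,
  .add 1 0,
  .scale ⟨30061730529280, 0, 0, 0⟩ 10,
  .add 1 0,
  .scale ⟨26865804509184, 0, 0, 0⟩ 7,
  .add 1 0,
  .const ⟨4999314800640, 0, 0, 0⟩,
  .add 1 0,
  .scale ⟨8796093022208, 0, 0, 0⟩ 173,
  .neg 0,
  .exp 0,
  .mul 176 3,
  .add 0 166,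
  .mul 2 0,
  .sub 168 0,
  .inv 172,
  .mul 1 0,
  .pos 0,
  .scale ⟨274546753536, 0, 0, 0⟩ 23,
  .scale ⟨0, 390724190208, 0, 0⟩ 23,
  .add 1 0,
  .scale ⟨0, 532386480128, 0, 0⟩ 24,
  .add 1 0,
  .scale ⟨6084993941504, 0, 0, 0⟩ 30,
  .add 1 0,
  .scale ⟨0, 567791779840, 0, 0⟩ 27,
  .add 1 0,
  .const ⟨960747732992, 0, 0, 0⟩,
  .add 1 0,
  .pos 0,
  .mul 183 183,
  .const ⟨23701777022976, 0, 0, 0⟩,
  .add 1 0,
  .pos 0,
  .const ⟨73282879488, 0, 0, 0⟩,
  .sub 199 0,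
  .const ⟨1537598291968, 0, 0, 0⟩,
  .sub 202 0,
  .mul 0 0,
  .mul 0 1,
  .mul 4 2,
  .scale ⟨1277734092800, 0, 0, 0⟩ 3,
  .scale ⟨0, 1605858754560, 0, 0⟩ 3,
  .add 1 0,
  .scale ⟨0, 1537927348224, 0, 0⟩ 4,
  .add 1 0,
  .scale ⟨36146724470784, 0, 0, 0⟩ 10,
  .add 1 0,
  .scale ⟨26298012729344, 0, 0, 0⟩ 7,
  .add 1 0,
  .const ⟨5960062533632, 0, 0, 0⟩,
  .add 1 0,
  .scale ⟨10995116277760, 0, 0, 0⟩ 214,
  .neg 0,
  .exp 0,
  .mul 217 3,
  .add 0 207,
  .mul 2 0,
  .sub 209 0,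
  .inv 213,
  .mul 1 0,
  .pos 0,
  .scale ⟨241095278592, 0, 0, 0⟩ 23,
  .scale ⟨0, 318945689600, 0, 0⟩ 23,
  .add 1 0,
  .scale ⟨0, 409718030336, 0, 0⟩ 24,
  .add 1 0,
  .scale ⟨5001806544896, 0, 0, 0⟩ 30,
  .add 1 0,
  .scale ⟨2511915646976, 0, 0, 0⟩ 27,
  .add 1 0,
  .const ⟨919875354624, 0, 0, 0⟩,
  .add 1 0,
  .pos 0,
  .mul 224 224,
  .const ⟨19095424598016, 0, 0, 0⟩,
  .add 1 0,
  .pos 0,
  .const ⟨73282879488, 0, 0, 0⟩,
  .sub 240 0,
  .const ⟨1537598291968, 0, 0, 0⟩,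
  .sub 243 0,
  .mul 0 0,
  .mul 0 1,
  .mul 4 2,
  .scale ⟨1518829371392, 0, 0, 0⟩ 3,
  .scale ⟨0, 1924804444160, 0, 0⟩ 3,
  .add 1 0,
  .scale ⟨0, 1947645378560, 0, 0⟩ 4,
  .add 1 0,
  .scale ⟨41148531015680, 0, 0, 0⟩ 10,
  .add 1 0,
  .scale ⟨28809928376320, 0, 0, 0⟩ 7,
  .add 1 0,
  .const ⟨6879937888256, 0, 0, 0⟩,
  .add 1 0,
  .scale ⟨13194139533312, 0, 0, 0⟩ 255,
  .neg 0,
  .exp 0,
  .mul 258 3,
  .add 0 248,
  .mul 2 0,
  .sub 250 0,
  .inv 254,
  .mul 1 0,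
  .pos 0,
  .mul 264 9,
  .add 0 254,
  .scale ⟨0, 4617948836659, 0, 0⟩ 266,
  .exp 0,
  .mul 2 0,
  .lt 0 1099511627520]

set_option maxRecDepth 1000000 in
noncomputable def c_S_0 {α : Type} (cst : Z → α) (add sub mul : α → α → α) (scale : Z → α → α)
    (neg inv exp log : α → α) (ok : α → Bool) (isPos : Nat → α → Bool) (isLt : α → Nat → Bool)
    (ball : Nat → α → α) (rball : α → α → α) : List α → Bool
  | [x0, x1] =>
  let v0 := mul x0 x1; ok v0 && (
  let v1 := scale ⟨2199023255552, 0, 0, 0⟩ v0; ok v1 && (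
  let v2 := exp v0; ok v2 && (
  let v3 := neg v0; ok v3 && (
  let v4 := exp v3; ok v4 && (
  let v5 := mul v4 v4; ok v5 && (
  let v6 := sub v2 v4; ok v6 && (
  let v7 := add v2 v4; ok v7 && (
  let v8 := mul v6 v7; ok v8 && (
  let v9 := scale ⟨549755813888, 0, 0, 0⟩ v8; ok v9 && (
  let v10 := inv x0; ok v10 && (
  let v11 := mul v9 v10; ok v11 && (
  let v12 := cst ⟨1099511627776, 0, 0, 0⟩; ok v12 && (
  let v13 := cst ⟨73282879488, 0, 0, 0⟩; ok v13 && (
  let v14 := sub x0 v13; ok v14 && (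
  let v15 := cst ⟨1537598291968, 0, 0, 0⟩; ok v15 && (
  let v16 := sub x1 v15; ok v16 && (
  let v17 := mul v16 v16; ok v17 && (
  let v18 := mul v17 v16; ok v18 && (
  let v19 := mul v14 v16; ok v19 && (
  let v20 := scale ⟨0, 136592097280, 0, 0⟩ v16; ok v20 && (
  let v21 := scale ⟨0, 205400375296, 0, 0⟩ v17; ok v21 && (
  let v22 := add v20 v21; ok v22 && (
  let v23 := scale ⟨122139967488, 0, 0, 0⟩ v18; ok v23 && (
  let v24 := add v22 v23; ok v24 && (
  let v25 := scale ⟨1596310880256, 0, 0, 0⟩ v14; ok v25 && (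
  let v26 := add v24 v25; ok v26 && (
  let v27 := scale ⟨14380816334848, 0, 0, 0⟩ v19; ok v27 && (
  let v28 := add v26 v27; ok v28 && (
  let v29 := cst ⟨1866776313856, 0, 0, 0⟩; ok v29 && (
  let v30 := add v28 v29; ok v30 && (
  isPos 2 v30 && (
  let v31 := mul v11 v11; ok v31 && (
  let v32 := cst ⟨18047452577792, 0, 0, 0⟩; ok v32 && (
  let v33 := add v31 v32; ok v33 && (
  isPos 2 v33 && (
  let v34 := cst ⟨73282879488, 0, 0, 0⟩; ok v34 && (
  let v35 := sub x0 v34; ok v35 && (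
  let v36 := cst ⟨1537598291968, 0, 0, 0⟩; ok v36 && (
  let v37 := sub x1 v36; ok v37 && (
  let v38 := mul v37 v37; ok v38 && (
  let v39 := mul v38 v37; ok v39 && (
  let v40 := mul v35 v37; ok v40 && (
  let v41 := scale ⟨0, 136592097280, 0, 0⟩ v37; ok v41 && (
  let v42 := scale ⟨0, 205400375296, 0, 0⟩ v38; ok v42 && (
  let v43 := add v41 v42; ok v43 && (
  let v44 := scale ⟨122139967488, 0, 0, 0⟩ v39; ok v44 && (
  let v45 := add v43 v44; ok v45 && (
  let v46 := scale ⟨1596310880256, 0, 0, 0⟩ v35; ok v46 && (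
  let v47 := add v45 v46; ok v47 && (
  let v48 := scale ⟨14380816334848, 0, 0, 0⟩ v40; ok v48 && (
  let v49 := add v47 v48; ok v49 && (
  let v50 := cst ⟨1866776313856, 0, 0, 0⟩; ok v50 && (
  let v51 := add v49 v50; ok v51 && (
  let v52 := scale ⟨2199023255552, 0, 0, 0⟩ v1; ok v52 && (
  let v53 := neg v52; ok v53 && (
  let v54 := exp v53; ok v54 && (
  let v55 := mul v1 v51; ok v55 && (
  let v56 := add v55 v12; ok v56 && (
  let v57 := mul v54 v56; ok v57 && (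
  let v58 := sub v12 v57; ok v58 && (
  let v59 := inv v9; ok v59 && (
  let v60 := mul v58 v59; ok v60 && (
  isPos 2 v60 && (
  let v61 := scale ⟨411087405056, 0, 0, 0⟩ v37; ok v61 && (
  let v62 := scale ⟨0, 243081019392, 0, 0⟩ v38; ok v62 && (
  let v63 := add v61 v62; ok v63 && (
  let v64 := scale ⟨0, 240365010944, 0, 0⟩ v39; ok v64 && (
  let v65 := add v63 v64; ok v65 && (
  let v66 := scale ⟨10190918909952, 0, 0, 0⟩ v35; ok v66 && (
  let v67 := add v65 v66; ok v67 && (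
  let v68 := scale ⟨5733937840128, 0, 0, 0⟩ v40; ok v68 && (
  let v69 := add v67 v68; ok v69 && (
  let v70 := cst ⟨1051811577856, 0, 0, 0⟩; ok v70 && (
  let v71 := add v69 v70; ok v71 && (
  isPos 2 v71 && (
  let v72 := mul v11 v11; ok v72 && (
  let v73 := cst ⟨24395414241280, 0, 0, 0⟩; ok v73 && (
  let v74 := add v72 v73; ok v74 && (
  isPos 2 v74 && (
  let v75 := cst ⟨73282879488, 0, 0, 0⟩; ok v75 && (
  let v76 := sub x0 v75; ok v76 && (
  let v77 := cst ⟨1537598291968, 0, 0, 0⟩; ok v77 && (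
  let v78 := sub x1 v77; ok v78 && (
  let v79 := mul v78 v78; ok v79 && (
  let v80 := mul v79 v78; ok v80 && (
  let v81 := mul v76 v78; ok v81 && (
  let v82 := scale ⟨274495307776, 0, 0, 0⟩ v78; ok v82 && (
  let v83 := scale ⟨0, 448481394688, 0, 0⟩ v79; ok v83 && (
  let v84 := add v82 v83; ok v84 && (
  let v85 := scale ⟨0, 118225043456, 0, 0⟩ v80; ok v85 && (
  let v86 := add v84 v85; ok v86 && (
  let v87 := scale ⟨11787229790208, 0, 0, 0⟩ v76; ok v87 && (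
  let v88 := add v86 v87; ok v88 && (
  let v89 := scale ⟨20114754174976, 0, 0, 0⟩ v81; ok v89 && (
  let v90 := add v88 v89; ok v90 && (
  let v91 := cst ⟨2918587891712, 0, 0, 0⟩; ok v91 && (
  let v92 := add v90 v91; ok v92 && (
  let v93 := scale ⟨4398046511104, 0, 0, 0⟩ v1; ok v93 && (
  let v94 := neg v93; ok v94 && (
  let v95 := exp v94; ok v95 && (
  let v96 := mul v1 v92; ok v96 && (
  let v97 := add v96 v12; ok v97 && (
  let v98 := mul v95 v97; ok v98 && (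
  let v99 := sub v12 v98; ok v99 && (
  let v100 := inv v9; ok v100 && (
  let v101 := mul v99 v100; ok v101 && (
  isPos 2 v101 && (
  let v102 := scale ⟨402633261056, 0, 0, 0⟩ v78; ok v102 && (
  let v103 := scale ⟨0, 355181461504, 0, 0⟩ v79; ok v103 && (
  let v104 := add v102 v103; ok v104 && (
  let v105 := scale ⟨0, 450657648640, 0, 0⟩ v80; ok v105 && (
  let v106 := add v104 v105; ok v106 && (
  let v107 := scale ⟨9765319868416, 0, 0, 0⟩ v76; ok v107 && (
  let v108 := add v106 v107; ok v108 && (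
  let v109 := scale ⟨4420997152768, 0, 0, 0⟩ v81; ok v109 && (
  let v110 := add v108 v109; ok v110 && (
  let v111 := cst ⟨1060637966336, 0, 0, 0⟩; ok v111 && (
  let v112 := add v110 v111; ok v112 && (
  isPos 2 v112 && (
  let v113 := mul v11 v11; ok v113 && (
  let v114 := cst ⟨27810986983424, 0, 0, 0⟩; ok v114 && (
  let v115 := add v113 v114; ok v115 && (
  isPos 2 v115 && (
  let v116 := cst ⟨73282879488, 0, 0, 0⟩; ok v116 && (
  let v117 := sub x0 v116; ok v117 && (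
  let v118 := cst ⟨1537598291968, 0, 0, 0⟩; ok v118 && (
  let v119 := sub x1 v118; ok v119 && (
  let v120 := mul v119 v119; ok v120 && (
  let v121 := mul v120 v119; ok v121 && (
  let v122 := mul v117 v119; ok v122 && (
  let v123 := scale ⟨677128568832, 0, 0, 0⟩ v119; ok v123 && (
  let v124 := scale ⟨0, 803662856192, 0, 0⟩ v120; ok v124 && (
  let v125 := add v123 v124; ok v125 && (
  let v126 := scale ⟨0, 568882692096, 0, 0⟩ v121; ok v126 && (
  let v127 := add v125 v126; ok v127 && (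
  let v128 := scale ⟨21552549658624, 0, 0, 0⟩ v117; ok v128 && (
  let v129 := add v127 v128; ok v129 && (
  let v130 := scale ⟨24535751327744, 0, 0, 0⟩ v122; ok v130 && (
  let v131 := add v129 v130; ok v131 && (
  let v132 := cst ⟨3979225858048, 0, 0, 0⟩; ok v132 && (
  let v133 := add v131 v132; ok v133 && (
  let v134 := scale ⟨6597069766656, 0, 0, 0⟩ v1; ok v134 && (
  let v135 := neg v134; ok v135 && (
  let v136 := exp v135; ok v136 && (
  let v137 := mul v1 v133; ok v137 && (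
  let v138 := add v137 v12; ok v138 && (
  let v139 := mul v136 v138; ok v139 && (
  let v140 := sub v12 v139; ok v140 && (
  let v141 := inv v9; ok v141 && (
  let v142 := mul v140 v141; ok v142 && (
  isPos 2 v142 && (
  let v143 := scale ⟨326058770432, 0, 0, 0⟩ v119; ok v143 && (
  let v144 := scale ⟨0, 411471708160, 0, 0⟩ v120; ok v144 && (
  let v145 := add v143 v144; ok v145 && (
  let v146 := scale ⟨0, 436658176000, 0, 0⟩ v121; ok v146 && (
  let v147 := add v145 v146; ok v147 && (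
  let v148 := scale ⟨8509180870656, 0, 0, 0⟩ v117; ok v148 && (
  let v149 := add v147 v148; ok v149 && (
  let v150 := scale ⟨2330053181440, 0, 0, 0⟩ v122; ok v150 && (
  let v151 := add v149 v150; ok v151 && (
  let v152 := cst ⟨1020088942592, 0, 0, 0⟩; ok v152 && (
  let v153 := add v151 v152; ok v153 && (
  isPos 2 v153 && (
  let v154 := mul v11 v11; ok v154 && (
  let v155 := cst ⟨27288074715136, 0, 0, 0⟩; ok v155 && (
  let v156 := add v154 v155; ok v156 && (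
  isPos 2 v156 && (
  let v157 := cst ⟨73282879488, 0, 0, 0⟩; ok v157 && (
  let v158 := sub x0 v157; ok v158 && (
  let v159 := cst ⟨1537598291968, 0, 0, 0⟩; ok v159 && (
  let v160 := sub x1 v159; ok v160 && (
  let v161 := mul v160 v160; ok v161 && (
  let v162 := mul v161 v160; ok v162 && (
  let v163 := mul v158 v160; ok v163 && (
  let v164 := scale ⟨1003187339264, 0, 0, 0⟩ v160; ok v164 && (
  let v165 := scale ⟨0, 1215134564352, 0, 0⟩ v161; ok v165 && (
  let v166 := add v164 v165; ok v166 && (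
  let v167 := scale ⟨0, 1005540868096, 0, 0⟩ v162; ok v167 && (
  let v168 := add v166 v167; ok v168 && (
  let v169 := scale ⟨30061730529280, 0, 0, 0⟩ v158; ok v169 && (
  let v170 := add v168 v169; ok v170 && (
  let v171 := scale ⟨26865804509184, 0, 0, 0⟩ v163; ok v171 && (
  let v172 := add v170 v171; ok v172 && (
  let v173 := cst ⟨4999314800640, 0, 0, 0⟩; ok v173 && (
  let v174 := add v172 v173; ok v174 && (
  let v175 := scale ⟨8796093022208, 0, 0, 0⟩ v1; ok v175 && (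
  let v176 := neg v175; ok v176 && (
  let v177 := exp v176; ok v177 && (
  let v178 := mul v1 v174; ok v178 && (
  let v179 := add v178 v12; ok v179 && (
  let v180 := mul v177 v179; ok v180 && (
  let v181 := sub v12 v180; ok v181 && (
  let v182 := inv v9; ok v182 && (
  let v183 := mul v181 v182; ok v183 && (
  isPos 2 v183 && (
  let v184 := scale ⟨274546753536, 0, 0, 0⟩ v160; ok v184 && (
  let v185 := scale ⟨0, 390724190208, 0, 0⟩ v161; ok v185 && (
  let v186 := add v184 v185; ok v186 && (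
  let v187 := scale ⟨0, 532386480128, 0, 0⟩ v162; ok v187 && (
  let v188 := add v186 v187; ok v188 && (
  let v189 := scale ⟨6084993941504, 0, 0, 0⟩ v158; ok v189 && (
  let v190 := add v188 v189; ok v190 && (
  let v191 := scale ⟨0, 567791779840, 0, 0⟩ v163; ok v191 && (
  let v192 := add v190 v191; ok v192 && (
  let v193 := cst ⟨960747732992, 0, 0, 0⟩; ok v193 && (
  let v194 := add v192 v193; ok v194 && (
  isPos 2 v194 && (
  let v195 := mul v11 v11; ok v195 && (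
  let v196 := cst ⟨23701777022976, 0, 0, 0⟩; ok v196 && (
  let v197 := add v195 v196; ok v197 && (
  isPos 2 v197 && (
  let v198 := cst ⟨73282879488, 0, 0, 0⟩; ok v198 && (
  let v199 := sub x0 v198; ok v199 && (
  let v200 := cst ⟨1537598291968, 0, 0, 0⟩; ok v200 && (
  let v201 := sub x1 v200; ok v201 && (
  let v202 := mul v201 v201; ok v202 && (
  let v203 := mul v202 v201; ok v203 && (
  let v204 := mul v199 v201; ok v204 && (
  let v205 := scale ⟨1277734092800, 0, 0, 0⟩ v201; ok v205 && (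
  let v206 := scale ⟨0, 1605858754560, 0, 0⟩ v202; ok v206 && (
  let v207 := add v205 v206; ok v207 && (
  let v208 := scale ⟨0, 1537927348224, 0, 0⟩ v203; ok v208 && (
  let v209 := add v207 v208; ok v209 && (
  let v210 := scale ⟨36146724470784, 0, 0, 0⟩ v199; ok v210 && (
  let v211 := add v209 v210; ok v211 && (
  let v212 := scale ⟨26298012729344, 0, 0, 0⟩ v204; ok v212 && (
  let v213 := add v211 v212; ok v213 && (
  let v214 := cst ⟨5960062533632, 0, 0, 0⟩; ok v214 && (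
  let v215 := add v213 v214; ok v215 && (
  let v216 := scale ⟨10995116277760, 0, 0, 0⟩ v1; ok v216 && (
  let v217 := neg v216; ok v217 && (
  let v218 := exp v217; ok v218 && (
  let v219 := mul v1 v215; ok v219 && (
  let v220 := add v219 v12; ok v220 && (
  let v221 := mul v218 v220; ok v221 && (
  let v222 := sub v12 v221; ok v222 && (
  let v223 := inv v9; ok v223 && (
  let v224 := mul v222 v223; ok v224 && (
  isPos 2 v224 && (
  let v225 := scale ⟨241095278592, 0, 0, 0⟩ v201; ok v225 && (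
  let v226 := scale ⟨0, 318945689600, 0, 0⟩ v202; ok v226 && (
  let v227 := add v225 v226; ok v227 && (
  let v228 := scale ⟨0, 409718030336, 0, 0⟩ v203; ok v228 && (
  let v229 := add v227 v228; ok v229 && (
  let v230 := scale ⟨5001806544896, 0, 0, 0⟩ v199; ok v230 && (
  let v231 := add v229 v230; ok v231 && (
  let v232 := scale ⟨2511915646976, 0, 0, 0⟩ v204; ok v232 && (
  let v233 := add v231 v232; ok v233 && (
  let v234 := cst ⟨919875354624, 0, 0, 0⟩; ok v234 && (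
  let v235 := add v233 v234; ok v235 && (
  isPos 2 v235 && (
  let v236 := mul v11 v11; ok v236 && (
  let v237 := cst ⟨19095424598016, 0, 0, 0⟩; ok v237 && (
  let v238 := add v236 v237; ok v238 && (
  isPos 2 v238 && (
  let v239 := cst ⟨73282879488, 0, 0, 0⟩; ok v239 && (
  let v240 := sub x0 v239; ok v240 && (
  let v241 := cst ⟨1537598291968, 0, 0, 0⟩; ok v241 && (
  let v242 := sub x1 v241; ok v242 && (
  let v243 := mul v242 v242; ok v243 && (
  let v244 := mul v243 v242; ok v244 && (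
  let v245 := mul v240 v242; ok v245 && (
  let v246 := scale ⟨1518829371392, 0, 0, 0⟩ v242; ok v246 && (
  let v247 := scale ⟨0, 1924804444160, 0, 0⟩ v243; ok v247 && (
  let v248 := add v246 v247; ok v248 && (
  let v249 := scale ⟨0, 1947645378560, 0, 0⟩ v244; ok v249 && (
  let v250 := add v248 v249; ok v250 && (
  let v251 := scale ⟨41148531015680, 0, 0, 0⟩ v240; ok v251 && (
  let v252 := add v250 v251; ok v252 && (
  let v253 := scale ⟨28809928376320, 0, 0, 0⟩ v245; ok v253 && (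
  let v254 := add v252 v253; ok v254 && (
  let v255 := cst ⟨6879937888256, 0, 0, 0⟩; ok v255 && (
  let v256 := add v254 v255; ok v256 && (
  let v257 := scale ⟨13194139533312, 0, 0, 0⟩ v1; ok v257 && (
  let v258 := neg v257; ok v258 && (
  let v259 := exp v258; ok v259 && (
  let v260 := mul v1 v256; ok v260 && (
  let v261 := add v260 v12; ok v261 && (
  let v262 := mul v259 v261; ok v262 && (
  let v263 := sub v12 v262; ok v263 && (
  let v264 := inv v9; ok v264 && (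
  let v265 := mul v263 v264; ok v265 && (
  isPos 2 v265 && (
  let v266 := mul v1 v256; ok v266 && (
  let v267 := add v266 v12; ok v267 && (
  let v268 := scale ⟨0, 4617948836659, 0, 0⟩ v1; ok v268 && (
  let v269 := exp v268; ok v269 && (
  let v270 := mul v267 v269; ok v270 && (
  isLt v270 1099511627520 && (
  true))))))))))))))))))))))))))))))))))))))))))))))))))))))))))))))))))))))))))))))))))))))))))))))))))))))))))))))))))))))))))))))))))))))))))))))))))))))))))))))))))))))))))))))))))))))))))))))))))))))))))))))))))))))))))))))))))))))))))))))))))))))))))))))))))))))))))))))))))))))))))))))))))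
  | _ => false

set_option maxRecDepth 1000000 in
theorem c_S_0_eq (X : XOps) (m : List X.O.α)
    (h : c_S_0 X.O.cst X.O.add X.O.sub X.O.mul X.O.scale X.O.neg X.O.inv X.O.exp X.O.log X.O.ok
      X.O.isPos X.O.isLt X.ball X.rball m = true) :
    runX X 2 p_S_0 m = true := by
  match m, h with
  | [x0, x1], h => exact h

abbrev gS : List (List Op) := [p_S_0]

noncomputable abbrev kS : List (List xE.O.α → Bool) := [c_S_0 xE.O.cst xE.O.add xE.O.sub xE.O.mul xE.O.scale xE.O.neg xE.O.inv xE.O.exp xE.O.log xE.O.ok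
      xE.O.isPos xE.O.isLt xE.ball xE.rball]

theorem kS_eq : List.Forall₂ (fun (ops : List Op) (chk : List xE.O.α → Bool) =>
    ∀ m, chk m = true → runX xE 2 ops m = true) gS kS :=
  List.Forall₂.cons (c_S_0_eq xE) List.Forall₂.nil

theorem gS_eq : gS = [PS tab 6] := by decide +kernel

end Pool.Agent.helper14.NR.E12d
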