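import Pool.Agent.helper63.NF.Cert

/-!
Generated: table E12d.
-/

namespace Pool.Agent.helper14.NR.E12d

open Pool.Agent.helper63.NF

def tab : TD where
  strip := false
  bm := none
  ec := 73282879488
  bc := 1537598291968
  H := [[[-92796185472, 107522741632, -1614559552, 1022564928], [-2157439619136, -268912681216, -125622035136], [6828666823552, 1862946281280], [35751019374080]], [[16004211776, -8318906112, 930196544], [208662228480, 27374535488], [-638281273984]], [[-1685933568, 289131136], [-12713015040]], [[93342144]], [[-2920512]]]
  pol := some ⟨-3376918036480, -25340307046400, 5872294035456, 31362867265536, [[-26976642304, -644724109184], [8243294473600, 0]], [[5178715130048, -1608312064512], [92190818541376, 0]]⟩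
  a := [[[857366986752, -296918253568, -729124765696, 1471889080320], [2813365518336, 294585171968]], [[88371822592, 294518784, 524288, -196608], [6180110336, 4442816512]], [[88784764928, 591921152, 2031616, -655360], [12419858432, 8975679488]], [[87145054208, -580648960, 2031616, -655360], [-12182945792, -8619032576]], [[87551967232, -291700736, 524288, -196608], [-6120865792, -4353622016]], [[87960911872, 0, 0, 0], [0, 0]]]
  j := [7421703487488, 1786706395136, 3573412790272, 5222680231936, 7009386627072, 8796093022208]
  c := [879662989312, 879662989312, 659814350848, 549755813888, 439697276928, 329907175424]
  M := [[[[1138765135872, 97559642112, 20337000448], [1534337613824, 2567040925696], [14305624195072]], [[228564008960, 367984640], [4671764955136]], [[161828569088, -34817310720], [-990428332032]], [[-168733900800]], [[116860518400]], [[-45051281408]]], [[[1139483738112, 62930288640, 38133104640], [1522680528896]], [[44009127936, 3536715776], [641975910400]], [[-1274478592]], [[89784320]]], [[[1142246277120, 69709135872, 29351149568], [1433323044864]], [[43428020224, 2523856896], [611610787840]], [[-1104871424]], [[61538304]]], [[[1142818603008, 72652161024, 26540507136], [1518248787968]], [[43363205120, 1749352448], [579576987648]], [[-1067778048]],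 [[52625408]]], [[[1144511725568, 73682780160, 26294353920], [1583308734464]], [[42552000512, 1464926208], [566537420800]], [[-926220288]], [[43974656]]], [[[1148275589120, 74731421696, 28377743360], [1598969937920]], [[40757297152, 1197735936], [565173157888]], [[-667287552]], [[32112640]]]]
  l0 := [[[3694436288256, 104456074112, -277634378624], [465434602048, -8993279142080], [-38995738986752]], [[575923226432, -816542781120, 318013445888], [-20094453066176, 9082346836224], [49619403227456]], [[79007768000, 1482381693184, -246956173056], [8427066836800, -6967740992576], [-64379744240896]], [[378817531776, -1586979548864], [-17747420195392]], [[134295812288, 972564255552], [2703271077376]], [[-525760305088, -304631191296], [-129481895808]], [[642012230720]], [[-112009813312]], [[-26778413056]], [[217772954240]]]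
  q0 := [[424610093504, 333289663296, 16329033920, -26344617472], [6463448512576, 4668743743552, -1258512691136], [-10024621052992, -16404252519936], [104589456706688]]
  t := [[[1866776313856, -136592097280, -205400375296, 122139967488], [1596310880256, 14380816334848]], [[1051811577856, 411087405056, -243081019392, -240365010944], [10190918909952, 5733937840128]], [[1060637966336, 402633261056, -355181461504, -450657648640], [9765319868416, 4420997152768]], [[1020088942592, 326058770432, -411471708160, -436658176000], [8509180870656, 2330053181440]], [[960747732992, 274546753536, -390724190208, -532386480128], [6084993941504, -567791779840]], [[919875354624, 241095278592, -318945689600, -409718030336], [5001806544896, 2511915646976]]]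
  y := [18047452577792, 24395414241280, 27810986983424, 27288074715136, 23701777022976, 19095424598016]
  sc := [0, 0, 0, 0, 0, 0]
  L := [(0, 2), (0, 3), (1, 1), (1, 2), (2, 0), (2, 1), (3, 0)]
  Lt := [(0, 2), (0, 3), (1, 1)]
  far := 1
  x2 := 10775213113344
  B1 := 659706347520
  C2 := 1327712154624
  f1 := 769658138624
  f2 := 0
  f3 := 0
  is1 := 8796093022208
  s1 := 137438953472

end Pool.Agent.helper14.NR.E12d
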